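import Mathlib

set_option autoImplicit false

open Set Topology

namespace Pool.Agent.InscribedSimplex

variable {V : Type*} [NormedAddCommGroup V] [InnerProductSpace ℝ V]

/-- The reflection of a unit vector `a` in the line through `a + b` is the unit vector `b`. -/
theorem reflection_add_apply {a b : V} (ha : ‖a‖ = 1) (hb : ‖b‖ = 1) (hab : a + b ≠ 0) :
    (Submodule.span ℝ {a + b}).reflection a = b := by
  have h1 : ‖a + b‖ ^ 2 = 2 * inner ℝ (a + b) a := by
    rw [← real_inner_self_eq_norm_sq]
    simp only [inner_add_left, inner_add_right, real_inner_self_eq_norm_sq, ha, hb,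
      real_inner_comm a b]
    ring
  have h2 : inner ℝ (a + b) a / ((‖a + b‖ : ℝ) ^ 2) = 1 / 2 := by
    have h3 : ‖a + b‖ ^ 2 ≠ 0 := by positivity
    rw [div_eq_iff h3, h1]; ring
  rw [Submodule.reflection_singleton_apply]
  simp only [RCLike.ofReal_real_eq_id, id_eq]
  rw [h2, ← Nat.cast_smul_eq_nsmul ℝ, smul_smul]
  norm_num

/-- A continuous path on the unit sphere lifts to a continuous path of linear isometries. -/
theorem exists_frame (γ : unitInterval → V) (hγ : Continuous γ) (hn : ∀ s, ‖γ s‖ = 1) :
    ∃ g : unitInterval → (V ≃ₗᵢ[ℝ] V), (∀ s, g s (γ 0) = γ s) ∧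
      Continuous (fun p : unitInterval × V => g p.1 p.2) := by
  -- uniform continuity
  have huc : UniformContinuous γ := CompactSpace.uniformContinuous_of_continuous hγ
  rw [Metric.uniformContinuous_iff] at huc
  obtain ⟨δ, hδ, hδ'⟩ := huc 1 one_pos
  obtain ⟨N, hN⟩ := exists_nat_gt (1 / δ)
  have hNpos : (0 : ℝ) < N := lt_trans (by positivity) hN
  have hN' : 1 / (N : ℝ) < δ := by
    rw [div_lt_iff₀ hNpos]
    rw [div_lt_iff₀ hδ] at hN
    linarith
  -- clamping
  let c : ℕ → unitInterval → unitInterval := fun i s =>
    ⟨min (s : ℝ) (i / N), ⟨le_min s.2.1 (by positivity), (min_le_left _ _).trans s.2.2⟩⟩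
  have hc : ∀ i, Continuous (c i) := by
    intro i
    apply Continuous.subtype_mk
    fun_prop
  have hc0 : ∀ s, c 0 s = 0 := by
    intro s
    apply Subtype.ext
    simp only [c, Nat.cast_zero, zero_div]
    exact min_eq_right s.2.1
  have hcN : ∀ s, c N s = s := by
    intro s
    apply Subtype.ext
    simp only [c]
    rw [div_self hNpos.ne']
    exact min_eq_left s.2.2
  have hclose : ∀ i s, ‖γ (c i s) - γ (c (i + 1) s)‖ < 1 := by
    intro i s
    rw [← dist_eq_norm]
    apply hδ'
    rw [Subtype.dist_eq, Real.dist_eq]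
    simp only [c]
    refine lt_of_le_of_lt ?_ hN'
    have h1 : ((i : ℝ) + 1) / N = i / N + 1 / N := by ring
    push_cast
    rw [h1]
    have hp : 0 < 1 / (N : ℝ) := by positivity
    rw [abs_le]
    constructor
    · rcases le_total (s : ℝ) (i / N) with h | h
      · rw [min_eq_left h, min_eq_left (by linarith)]; linarith
      · rw [min_eq_right h]
        have := min_le_right (s : ℝ) (i / N + 1 / N)
        linarith
    · have := min_le_min (le_refl (s : ℝ)) (show (i : ℝ) / N ≤ i / N + 1 / N by linarith)
      linarith
  have hne : ∀ i s, γ (c i s) + γ (c (i + 1) s) ≠ 0 := by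
    intro i s h0
    have h1 := hclose i s
    have h2 : γ (c (i + 1) s) = - γ (c i s) := by
      rw [eq_neg_iff_add_eq_zero, add_comm]; exact h0
    rw [h2, sub_neg_eq_add, ← two_smul ℝ, norm_smul, hn] at h1
    norm_num at h1
  have main : ∀ i : ℕ, ∃ g : unitInterval → (V ≃ₗᵢ[ℝ] V), (∀ s, g s (γ 0) = γ (c i s)) ∧
      Continuous (fun p : unitInterval × V => g p.1 p.2) := by
    intro i
    induction i with
    | zero =>
      refine ⟨fun _ => LinearIsometryEquiv.refl ℝ V, ?_, ?_⟩
      · intro s; rw [hc0]; rfl
      · exact continuous_snd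
    | succ i ih =>
      obtain ⟨g, hg1, hg2⟩ := ih
      refine ⟨fun s => (g s).trans
        (Submodule.span ℝ {γ (c i s) + γ (c (i + 1) s)}).reflection, ?_, ?_⟩
      · intro s
        simp only [LinearIsometryEquiv.trans_apply]
        rw [hg1]
        exact reflection_add_apply (hn _) (hn _) (hne i s)
      · have h1 : Continuous (fun p : unitInterval × V => γ (c i p.1) + γ (c (i + 1) p.1)) := by
          exact ((hγ.comp (hc i)).comp continuous_fst).add
            ((hγ.comp (hc (i + 1))).comp continuous_fst)
        simp only [LinearIsometryEquiv.trans_apply, Submodule.reflection_singleton_apply]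
        simp only [← Nat.cast_smul_eq_nsmul ℝ]
        refine Continuous.sub ?_ hg2
        refine Continuous.smul continuous_const ?_
        refine Continuous.smul ?_ h1
        apply Continuous.div (h1.inner hg2)
        · simp only [RCLike.ofReal_real_eq_id, id_eq]
          exact h1.norm.pow 2
        · intro p
          simp only [RCLike.ofReal_real_eq_id, id_eq]
          have := hne i p.1
          positivity
  obtain ⟨g, hg1, hg2⟩ := main N
  exact ⟨g, fun s => by rw [hg1, hcN], hg2⟩

end Pool.Agent.InscribedSimplex
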