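import Mathlib

set_option autoImplicit false

open Set Topology

namespace Pool.Agent.InscribedSimplex

/-- If `E` is a connected set in a connected, locally connected space, `E` closed, and `W` is a
connected component of the complement of `E`, then the complement of `W` is connected. -/
theorem isPreconnected_compl_component {X : Type*} [TopologicalSpace X] [PreconnectedSpace X]
    [LocallyConnectedSpace X] {E : Set X} (hE : IsClosed E) (hEc : IsPreconnected E)
    (y : X) (hne : E.Nonempty) :
    IsPreconnected (connectedComponentIn Eᶜ y)ᶜ := by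
  set W := connectedComponentIn Eᶜ y with hW
  have hWopen : IsOpen W := hE.isOpen_compl.connectedComponentIn
  have hWsub : W ⊆ Eᶜ := connectedComponentIn_subset _ _
  have hEW : E ⊆ Wᶜ := fun x hx hxW => hWsub hxW hx
  rw [isPreconnected_closed_iff]
  intro P Q hP hQ hcov hPne hQne
  by_contra hcon
  rw [not_nonempty_iff_eq_empty] at hcon
  -- key claim: a closed piece of `Wᶜ` not meeting `E` is open
  have key : ∀ P Q : Set X, IsClosed P → IsClosed Q → Wᶜ ⊆ P ∪ Q → (Wᶜ ∩ Q).Nonempty →
      Wᶜ ∩ (P ∩ Q) = ∅ → E ⊆ P → False := by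
    intro P Q hP hQ hcov hQne hcon hEP
    have hclosed : IsClosed (Wᶜ ∩ Q) := hWopen.isClosed_compl.inter hQ
    have hopen : IsOpen (Wᶜ ∩ Q) := by
      rw [isOpen_iff_mem_nhds]
      intro q hq
      have hqE : q ∈ Eᶜ := by
        intro hqE
        have : q ∈ Wᶜ ∩ (P ∩ Q) := ⟨hq.1, hEP hqE, hq.2⟩
        rw [hcon] at this
        exact this
      have hCopen : IsOpen (connectedComponentIn Eᶜ q) := hE.isOpen_compl.connectedComponentIn
      have hqC : q ∈ connectedComponentIn Eᶜ q := mem_connectedComponentIn hqE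
      have hCW : connectedComponentIn Eᶜ q ⊆ Wᶜ := by
        intro x hx hxW
        have h1 : connectedComponentIn Eᶜ q = connectedComponentIn Eᶜ x :=
          connectedComponentIn_eq hx
        have h2 : connectedComponentIn Eᶜ y = connectedComponentIn Eᶜ x :=
          connectedComponentIn_eq hxW
        apply hq.1
        rw [hW, h2, ← h1]
        exact hqC
      have hCpre : IsPreconnected (connectedComponentIn Eᶜ q) := isPreconnected_connectedComponentIn
      have hCQ : connectedComponentIn Eᶜ q ⊆ Wᶜ ∩ Q := by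
        intro x hx
        refine ⟨hCW hx, ?_⟩
        by_contra hxQ
        rw [isPreconnected_closed_iff] at hCpre
        have hxP : x ∈ P := by
          rcases hcov (hCW hx) with h | h
          · exact h
          · exact absurd h hxQ
        obtain ⟨z, hz1, hz2⟩ := hCpre P Q hP hQ (hCW.trans hcov) ⟨x, hx, hxP⟩ ⟨q, hqC, hq.2⟩
        have : z ∈ Wᶜ ∩ (P ∩ Q) := ⟨hCW hz1, hz2⟩
        rw [hcon] at this
        exact this
      exact Filter.mem_of_superset (hCopen.mem_nhds hqC) hCQ
    have hclopen : IsClopen (Wᶜ ∩ Q) := ⟨hclosed, hopen⟩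
    have huniv := hclopen.eq_univ hQne
    obtain ⟨x, hx⟩ := hne
    have hxQ : x ∈ Wᶜ ∩ Q := by rw [huniv]; trivial
    have : x ∈ Wᶜ ∩ (P ∩ Q) := ⟨hxQ.1, hEP hx, hxQ.2⟩
    rw [hcon] at this
    exact this
  -- `E` lies in `P` or in `Q`
  have hE2 := (isPreconnected_closed_iff.1 hEc) P Q hP hQ (hEW.trans hcov)
  by_cases h1 : (E ∩ P).Nonempty
  · by_cases h2 : (E ∩ Q).Nonempty
    · obtain ⟨z, hz1, hz2⟩ := hE2 h1 h2
      have : z ∈ Wᶜ ∩ (P ∩ Q) := ⟨hEW hz1, hz2⟩
      rw [hcon] at this
      exact this
    · have hEP : E ⊆ P := by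
        intro x hx
        rcases hcov (hEW hx) with h | h
        · exact h
        · exact absurd ⟨x, hx, h⟩ h2
      exact key P Q hP hQ hcov hQne hcon hEP
  · have hEQ : E ⊆ Q := by
      intro x hx
      rcases hcov (hEW hx) with h | h
      · exact absurd ⟨x, hx, h⟩ h1
      · exact h
    exact key Q P hQ hP (by rwa [union_comm]) hPne (by rwa [inter_comm Q P]) hEQ

/-- A continuous real function with `exp (i h) = 1` on a preconnected set is constant there. -/
theorem eq_of_exp_eq_one {X : Type*} [TopologicalSpace X] {S : Set X} (hS : IsPreconnected S)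
    {h : X → ℝ} (hc : Continuous h) (hexp : ∀ x ∈ S, Circle.exp (h x) = 1) {x y : X}
    (hx : x ∈ S) (hy : y ∈ S) : h x = h y := by
  -- wlog `h x < h y`
  have key : ∀ x ∈ S, ∀ y ∈ S, ¬ h x < h y := by
    intro x hx y hy hlt
    obtain ⟨m, hm⟩ := Circle.exp_eq_one.1 (hexp x hx)
    obtain ⟨n, hn⟩ := Circle.exp_eq_one.1 (hexp y hy)
    have hpi := Real.pi_pos
    have hmn : m < n := by
      rw [hm, hn] at hlt
      have : (m : ℝ) < n := by
        by_contra hle
        push Not at hle
        nlinarith
      exact_mod_cast this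
    have hmn' : (m : ℝ) + 1 ≤ n := by exact_mod_cast hmn
    have himg : IsPreconnected (h '' S) := hS.image h hc.continuousOn
    have hoc := himg.ordConnected
    have hmid : h x + Real.pi ∈ Icc (h x) (h y) := by
      constructor
      · linarith
      · rw [hm, hn]; nlinarith
    obtain ⟨z, hz, hzeq⟩ := hoc.out ⟨x, hx, rfl⟩ ⟨y, hy, rfl⟩ hmid
    obtain ⟨l, hl⟩ := Circle.exp_eq_one.1 (hexp z hz)
    rw [hl, hm] at hzeq
    have h2 : ((l : ℝ) - m) * 2 = 1 := by
      have : (((l : ℝ) - m) * 2 - 1) * Real.pi = 0 := by linarith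
      rcases mul_eq_zero.1 this with h | h
      · linarith
      · exact absurd h hpi.ne'
    have h3 : ((l - m) * 2 : ℤ) = 1 := by exact_mod_cast h2
    omega
  rcases lt_trichotomy (h x) (h y) with h1 | h1 | h1
  · exact absurd h1 (key x hx y hy)
  · exact h1
  · exact absurd h1 (key y hy x hx)

open Classical in
/-- Unicoherence type statement: in `I × A`, if `W` is open with connected closure and connected
complement, and the complement contains the bottom `{0} × A`, then the frontier of `W` is
connected. -/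
theorem isPreconnected_frontier {A : Type*} [MetricSpace A] {W : Set (unitInterval × A)}
    (hWo : IsOpen W) (hWpre : IsPreconnected W) (hWc : IsPreconnected Wᶜ)
    (h0 : ∀ a, ((0 : unitInterval), a) ∈ Wᶜ) : IsPreconnected (frontier W) := by
  rw [isPreconnected_closed_iff]
  intro P Q hP hQ hcov hPne hQne
  by_contra hcon
  rw [not_nonempty_iff_eq_empty] at hcon
  set Za := frontier W ∩ P with hZa
  set Zb := frontier W ∩ Q with hZb
  have hZac : IsClosed Za := isClosed_frontier.inter hP
  have hZbc : IsClosed Zb := isClosed_frontier.inter hQ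
  have hdisj : ∀ y, y ∈ Za → y ∈ Zb → False := by
    intro y h1 h2
    have : y ∈ frontier W ∩ (P ∩ Q) := ⟨h1.1, h1.2, h2.2⟩
    rw [hcon] at this; exact this
  set φ : unitInterval × A → ℝ := fun y => Metric.infDist y Za / (Metric.infDist y Za + Metric.infDist y Zb) with hφ
  have hden : ∀ y, Metric.infDist y Za + Metric.infDist y Zb ≠ 0 := by
    intro y hy
    have ha : Metric.infDist y Za = 0 := by
      have := Metric.infDist_nonneg (x := y) (s := Za)
      have := Metric.infDist_nonneg (x := y) (s := Zb)
      linarith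
    have hb : Metric.infDist y Zb = 0 := by
      have := Metric.infDist_nonneg (x := y) (s := Za)
      have := Metric.infDist_nonneg (x := y) (s := Zb)
      linarith
    exact hdisj y ((hZac.mem_iff_infDist_zero hPne).2 ha) ((hZbc.mem_iff_infDist_zero hQne).2 hb)
  have hφc : Continuous φ := by
    apply Continuous.div
    · exact Metric.continuous_infDist_pt _
    · exact (Metric.continuous_infDist_pt _).add (Metric.continuous_infDist_pt _)
    · exact hden
  have hφa : ∀ y ∈ Za, φ y = 0 := by
    intro y hy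
    simp only [hφ]
    rw [Metric.infDist_zero_of_mem hy]; simp
  have hφb : ∀ y ∈ Zb, φ y = 1 := by
    intro y hy
    simp only [hφ]
    have h1 := hden y
    rw [Metric.infDist_zero_of_mem hy] at h1 ⊢
    rw [add_zero] at h1 ⊢
    exact div_self h1
  have hagree : ∀ y ∈ frontier W, Circle.exp (Real.pi * φ y) = Circle.exp (-(Real.pi * φ y)) := by
    intro y hy
    rcases hcov hy with h | h
    · rw [hφa y ⟨hy, h⟩]; simp
    · rw [hφb y ⟨hy, h⟩, Circle.exp_eq_exp]
      exact ⟨1, by push_cast; ring⟩
  have hc1 : Continuous fun y => Circle.exp (Real.pi * φ y) :=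
    Circle.exp.continuous.comp (continuous_const.mul hφc)
  have hc2 : Continuous fun y => Circle.exp (-(Real.pi * φ y)) :=
    Circle.exp.continuous.comp (continuous_const.mul hφc).neg
  let H : C(unitInterval × A, Circle) :=
    ⟨W.piecewise (fun y => Circle.exp (Real.pi * φ y)) (fun y => Circle.exp (-(Real.pi * φ y))),
      Continuous.piecewise hagree hc1 hc2⟩
  have hH : ∀ x, H x = W.piecewise (fun y => Circle.exp (Real.pi * φ y))
      (fun y => Circle.exp (-(Real.pi * φ y))) x := fun _ => rfl
  let f : C(A, ℝ) := ⟨fun a => -(Real.pi * φ (0, a)), by fun_prop⟩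
  have hHf : ∀ a, H (0, a) = Circle.exp (f a) := by
    intro a
    have : ((0 : unitInterval), a) ∉ W := h0 a
    simp [H, f, this]
  set ψ := Circle.isCoveringMap_exp.liftHomotopy H f hHf with hψ
  have hlift : ∀ y, Circle.exp (ψ y) = H y := by
    intro y
    have := Circle.isCoveringMap_exp.liftHomotopy_lifts H f hHf
    exact congrFun this y
  have hzero : ∀ a, ψ (0, a) = -(Real.pi * φ (0, a)) := by
    intro a
    exact Circle.isCoveringMap_exp.liftHomotopy_zero H f hHf a
  have hψc : Continuous ψ := ψ.continuous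
  -- on the complement
  obtain ⟨ya, hya⟩ := hPne
  obtain ⟨yb, hyb⟩ := hQne
  have hout : ∀ y ∈ Wᶜ, ψ y = -(Real.pi * φ y) := by
    intro y hy
    have hexp : ∀ x ∈ Wᶜ, Circle.exp ((fun y => ψ y + Real.pi * φ y) x) = 1 := by
      intro x hx
      have h1 : H x = Circle.exp (-(Real.pi * φ x)) := by
        rw [hH, Set.piecewise_eq_of_notMem _ _ _ hx]
      beta_reduce
      rw [Circle.exp_add, hlift, h1, ← Circle.exp_add]; simp
    have h2 : ψ (0, ya.2) + Real.pi * φ (0, ya.2) = ψ y + Real.pi * φ y :=
      eq_of_exp_eq_one hWc (hψc.add (continuous_const.mul hφc)) hexp (h0 ya.2) hy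
    rw [hzero] at h2
    linarith
  have hin : ∀ y ∈ closure W, Circle.exp ((fun y => ψ y + -(Real.pi * φ y)) y) = 1 := by
    intro x hx
    have h1 : H x = Circle.exp (Real.pi * φ x) := by
      rw [hH]
      by_cases hxW : x ∈ W
      · rw [Set.piecewise_eq_of_mem _ _ _ hxW]
      · rw [Set.piecewise_eq_of_notMem _ _ _ hxW]
        refine (hagree x ⟨hx, fun h => hxW (interior_subset h)⟩).symm
    beta_reduce
    rw [Circle.exp_add, hlift, h1, ← Circle.exp_add]; simp
  have hfa : ya ∈ closure W := hya.1.1
  have hfb : yb ∈ closure W := hyb.1.1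
  have hconst : ψ ya + -(Real.pi * φ ya) = ψ yb + -(Real.pi * φ yb) :=
    eq_of_exp_eq_one hWpre.closure (hψc.add (continuous_const.mul hφc).neg) hin hfa hfb
  have hnotW : ∀ y ∈ frontier W, y ∈ Wᶜ := by
    intro y hy hyW
    rw [hWo.frontier_eq] at hy
    exact hy.2 hyW
  rw [hout ya (hnotW _ hya.1), hout yb (hnotW _ hyb.1), hφa ya hya, hφb yb hyb] at hconst
  have := Real.pi_pos
  linarith
end Pool.Agent.InscribedSimplex
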