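import Mathlib
import Pool.Agent.InscribedSimplex.Topo

set_option autoImplicit false

open Set Topology

namespace Pool.Agent.InscribedSimplex

instance instLPCInterval : LocallyPathConnectedSpace unitInterval :=
  (convex_Icc (0 : ℝ) 1).locallyPathConnectedSpace

theorem isClosed_component {X : Type*} [TopologicalSpace X] {N : Set X} (hN : IsClosed N)
    {x : X} (hx : x ∈ N) : IsClosed (connectedComponentIn N x) := by
  have h1 : IsPreconnected (closure (connectedComponentIn N x)) :=
    isPreconnected_connectedComponentIn.closure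
  have h2 : closure (connectedComponentIn N x) ⊆ N :=
    closure_minimal (connectedComponentIn_subset _ _) hN
  have h3 := h1.subset_connectedComponentIn (subset_closure (mem_connectedComponentIn hx)) h2
  exact isClosed_of_closure_subset h3

/-- A preconnected set meeting `W` and its complement meets the frontier of `W`. -/
theorem inter_frontier_nonempty {X : Type*} [TopologicalSpace X] {S W : Set X}
    (hS : IsPreconnected S) {x y : X} (hx : x ∈ S) (hxW : x ∈ W) (hy : y ∈ S) (hyW : y ∉ W) :
    (S ∩ frontier W).Nonempty := by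
  by_contra hcon
  rw [not_nonempty_iff_eq_empty] at hcon
  have h1 : S ⊆ interior W ∪ (closure W)ᶜ := by
    intro z hz
    by_contra hz'
    rw [mem_union, not_or, mem_compl_iff, not_not] at hz'
    have : z ∈ S ∩ frontier W := ⟨hz, hz'.2, hz'.1⟩
    rw [hcon] at this; exact this
  have hxi : x ∈ interior W := by
    rcases h1 hx with h | h
    · exact h
    · exact absurd (subset_closure hxW) h
  have hyo : y ∈ (closure W)ᶜ := by
    rcases h1 hy with h | h
    · exact absurd (interior_subset h) hyW
    · exact h
  obtain ⟨z, -, hz1, hz2⟩ := hS _ _ isOpen_interior isClosed_closure.isOpen_compl h1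
    ⟨x, hx, hxi⟩ ⟨y, hy, hyo⟩
  exact hz2 (subset_closure (interior_subset hz1))

/-- The separating set: an open set `W` whose frontier is connected, lies in the zero set of `w`,
and separates the bottom from the positive part `{1} × C` of the top. -/
theorem exists_separator {A : Type*} [MetricSpace A] [PreconnectedSpace A]
    [LocallyPathConnectedSpace A] {w : unitInterval × A → ℝ} (hw : Continuous w)
    (h0 : ∀ a, w (0, a) ≤ 0) {C : Set A} (hC : IsPreconnected C) {n : A} (hn : n ∈ C)
    (h1 : ∀ a ∈ C, 0 < w (1, a)) :
    ∃ W : Set (unitInterval × A), IsOpen W ∧ IsPreconnected (frontier W) ∧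
      (∀ a, ((0 : unitInterval), a) ∉ W) ∧ (∀ a ∈ C, ((1 : unitInterval), a) ∈ W) ∧
      ∀ x ∈ frontier W, w x = 0 := by
  set N : Set (unitInterval × A) := {x | w x ≤ 0} with hN
  have hNc : IsClosed N := isClosed_le hw continuous_const
  have h0N : ∀ a, ((0 : unitInterval), a) ∈ N := h0
  set E := connectedComponentIn N (0, n) with hE
  have hEc : IsClosed E := isClosed_component hNc (h0N n)
  have hEp : IsPreconnected E := isPreconnected_connectedComponentIn
  have hEN : E ⊆ N := connectedComponentIn_subset _ _
  have hEne : E.Nonempty := ⟨_, mem_connectedComponentIn (h0N n)⟩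
  have hbot : ∀ a, ((0 : unitInterval), a) ∈ E := by
    intro a
    have hpre : IsPreconnected (range fun a : A => ((0 : unitInterval), a)) :=
      isPreconnected_range (by fun_prop)
    have hsub := hpre.subset_connectedComponentIn
      (⟨n, rfl⟩ : ((0 : unitInterval), n) ∈ range fun a : A => ((0 : unitInterval), a))
      (by rintro _ ⟨a, rfl⟩; exact h0N a)
    exact hsub ⟨a, rfl⟩
  set W := connectedComponentIn Eᶜ (1, n) with hW
  have hWo : IsOpen W := hEc.isOpen_compl.connectedComponentIn
  have hWE : W ⊆ Eᶜ := connectedComponentIn_subset _ _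
  have hWpre : IsPreconnected W := isPreconnected_connectedComponentIn
  have hWc : IsPreconnected Wᶜ := isPreconnected_compl_component hEc hEp (1, n) hEne
  have hbotW : ∀ a, ((0 : unitInterval), a) ∉ W := fun a h => hWE h (hbot a)
  refine ⟨W, hWo, isPreconnected_frontier hWo hWpre hWc hbotW, hbotW, ?_, ?_⟩
  · intro a ha
    have hpre : IsPreconnected ((fun a : A => ((1 : unitInterval), a)) '' C) :=
      hC.image _ (by fun_prop)
    have hsub := hpre.subset_connectedComponentIn (F := Eᶜ) ⟨n, hn, rfl⟩
      (by
        rintro _ ⟨b, hb, rfl⟩ hbE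
        have h2 := hEN hbE
        have h3 := h1 b hb
        simp only [hN, mem_ofPred_eq] at h2
        linarith)
    exact hsub ⟨a, ha, rfl⟩
  · intro x hx
    have hxW : x ∉ W := by
      rw [hWo.frontier_eq] at hx; exact hx.2
    have hxcl : x ∈ closure W := hx.1
    have hxE : x ∈ E := by
      by_contra hxE
      have hopen : IsOpen (connectedComponentIn Eᶜ x) := hEc.isOpen_compl.connectedComponentIn
      have hmem : x ∈ connectedComponentIn Eᶜ x := mem_connectedComponentIn hxE
      obtain ⟨z, hz1, hz2⟩ := mem_closure_iff.1 hxcl _ hopen hmem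
      have e1 : connectedComponentIn Eᶜ x = connectedComponentIn Eᶜ z :=
        connectedComponentIn_eq hz1
      have e2 : connectedComponentIn Eᶜ ((1 : unitInterval), n) = connectedComponentIn Eᶜ z :=
        connectedComponentIn_eq hz2
      apply hxW
      rw [hW, e2, ← e1]
      exact hmem
    have hle : w x ≤ 0 := hEN hxE
    by_contra hne
    have hlt : w x < 0 := lt_of_le_of_ne hle hne
    have hnb : {y | w y < 0} ∈ 𝓝 x := (isOpen_lt hw continuous_const).mem_nhds hlt
    have hcomp : connectedComponentIn {y | w y < 0} x ∈ 𝓝 x := connectedComponentIn_mem_nhds hnb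
    have hsub : connectedComponentIn {y | w y < 0} x ⊆ E := by
      have hpre : IsPreconnected (connectedComponentIn {y | w y < 0} x) :=
        isPreconnected_connectedComponentIn
      have h4 := hpre.subset_connectedComponentIn (F := N)
        (mem_connectedComponentIn (show x ∈ {y | w y < 0} from hlt))
        (fun y hy => by
          have h6 : y ∈ {y | w y < 0} := connectedComponentIn_subset _ _ hy
          have h7 : w y < 0 := h6
          exact h7.le)
      have h5 : connectedComponentIn N (0, n) = connectedComponentIn N x :=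
        connectedComponentIn_eq hxE
      rw [hE, h5]
      exact h4
    obtain ⟨z, hz1, hz2⟩ := mem_closure_iff_nhds.1 hxcl _ hcomp
    exact hWE hz2 (hsub hz1)

section data

variable {A : Type*} [MetricSpace A] {W : Set (unitInterval × A)}

theorem isPreconnected_segment_low (t : unitInterval) (a : A) :
    IsPreconnected ((fun s : unitInterval => (s, a)) '' Iic t) :=
  (ordConnected_Iic.isPreconnected).image _ (by fun_prop)

theorem isPreconnected_segment_high (t : unitInterval) (a : A) :
    IsPreconnected ((fun s : unitInterval => (s, a)) '' Ici t) :=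
  (ordConnected_Ici.isPreconnected).image _ (by fun_prop)

/-- Lowest point of the frontier. -/
theorem exists_low [CompactSpace A] (hWo : IsOpen W) (hbot : ∀ a, ((0 : unitInterval), a) ∉ W)
    {n : A} (hn : ((1 : unitInterval), n) ∈ W) :
    ∃ z ∈ frontier W, ∀ a, (z.1, a) ∉ W := by
  have hne : (frontier W).Nonempty := by
    have h := inter_frontier_nonempty (isPreconnected_segment_low 1 n) (W := W)
      (x := (1, n)) (y := (0, n)) ⟨1, by simp, rfl⟩ hn ⟨0, by simp, rfl⟩ (hbot n)
    exact h.mono inter_subset_right
  have hcomp : IsCompact (frontier W) := isClosed_frontier.isCompact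
  obtain ⟨z, hz, hmin⟩ := hcomp.exists_isMinOn hne (f := fun x : unitInterval × A => x.1)
    continuous_fst.continuousOn
  refine ⟨z, hz, ?_⟩
  intro a ha
  obtain ⟨y, hy1, hy2⟩ := inter_frontier_nonempty (isPreconnected_segment_low z.1 a) (W := W)
      (x := (z.1, a)) (y := (0, a)) ⟨z.1, by simp, rfl⟩ ha ⟨0, by simp, rfl⟩ (hbot a)
  obtain ⟨s, hs, rfl⟩ := hy1
  have h1 : z.1 ≤ s := hmin hy2
  have h2 : s = z.1 := le_antisymm hs h1
  rw [hWo.frontier_eq, h2] at hy2
  exact hy2.2 ha

/-- Highest point of the frontier when the whole top is in `W`. -/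
theorem exists_high [CompactSpace A] (hbot : ∀ a, ((0 : unitInterval), a) ∉ W)
    {n : A} (htop : ∀ a, ((1 : unitInterval), a) ∈ W) :
    ∃ z ∈ frontier W, ∀ a, (z.1, a) ∈ closure W := by
  have hne : (frontier W).Nonempty := by
    have h := inter_frontier_nonempty (isPreconnected_segment_low 1 n) (W := W)
      (x := (1, n)) (y := (0, n)) ⟨1, by simp, rfl⟩ (htop n) ⟨0, by simp, rfl⟩ (hbot n)
    exact h.mono inter_subset_right
  have hcomp : IsCompact (frontier W) := isClosed_frontier.isCompact
  obtain ⟨z, hz, hmax⟩ := hcomp.exists_isMaxOn hne (f := fun x : unitInterval × A => x.1)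
    continuous_fst.continuousOn
  refine ⟨z, hz, ?_⟩
  intro a
  by_cases ha : (z.1, a) ∈ W
  · exact subset_closure ha
  obtain ⟨y, hy1, hy2⟩ := inter_frontier_nonempty (isPreconnected_segment_high z.1 a) (W := W)
      (x := (1, a)) (y := (z.1, a)) ⟨1, z.1.2.2, rfl⟩ (htop a) ⟨z.1, by simp, rfl⟩ ha
  obtain ⟨s, hs, rfl⟩ := hy1
  have h1 : s ≤ z.1 := hmax hy2
  have h2 : s = z.1 := le_antisymm h1 hs
  rw [h2] at hy2
  exact hy2.1

/-- A path near the connected frontier. -/
theorem exists_path_near [LocallyPathConnectedSpace A] (hZ : IsPreconnected (frontier W))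
    {O : Set (unitInterval × A)} (hO : IsOpen O) (hZO : frontier W ⊆ O)
    {z z' : unitInterval × A} (hz : z ∈ frontier W) (hz' : z' ∈ frontier W) :
    ∃ p : unitInterval → unitInterval × A, Continuous p ∧ p 0 = z ∧ p 1 = z' ∧ ∀ s, p s ∈ O := by
  have h1 : IsOpen (connectedComponentIn O z) := hO.connectedComponentIn
  have h2 : z ∈ connectedComponentIn O z := mem_connectedComponentIn (hZO hz)
  have h3 : z' ∈ connectedComponentIn O z := hZ.subset_connectedComponentIn hz hZO hz'
  have h4 : IsPathConnected (connectedComponentIn O z) :=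
    h1.isConnected_iff_isPathConnected.1 ⟨⟨z, h2⟩, isPreconnected_connectedComponentIn⟩
  obtain ⟨p, hp⟩ := h4.joinedIn z h2 z' h3
  exact ⟨p, p.continuous, p.source, p.target, fun s => connectedComponentIn_subset _ _ (hp s)⟩

/-- The signed distance to the frontier of `W`. -/
noncomputable def sdist (W : Set (unitInterval × A)) (x : unitInterval × A) : ℝ :=
  Metric.infDist x Wᶜ - Metric.infDist x W

theorem continuous_sdist : Continuous (sdist W) :=
  (Metric.continuous_infDist_pt _).sub (Metric.continuous_infDist_pt _)

theorem sdist_nonneg {x : unitInterval × A} (hx : x ∈ closure W) : 0 ≤ sdist W x := by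
  unfold sdist
  have h1 := Metric.infDist_nonneg (x := x) (s := Wᶜ)
  have h2 : Metric.infDist x W = 0 := by
    rw [← Metric.infDist_closure]; exact Metric.infDist_zero_of_mem hx
  linarith

theorem sdist_nonpos {x : unitInterval × A} (hx : x ∉ W) : sdist W x ≤ 0 := by
  unfold sdist
  have h1 := Metric.infDist_nonneg (x := x) (s := W)
  have h2 : Metric.infDist x Wᶜ = 0 := Metric.infDist_zero_of_mem hx
  linarith

theorem mem_frontier_of_sdist (hWo : IsOpen W) {b t : unitInterval × A} (hb : b ∉ W) (ht : t ∈ W)
    {x : unitInterval × A} (hx : sdist W x = 0) : x ∈ frontier W := by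
  unfold sdist at hx
  have hcl : IsClosed Wᶜ := hWo.isClosed_compl
  by_cases hxW : x ∈ W
  · rw [Metric.infDist_zero_of_mem hxW, sub_zero] at hx
    exact absurd hxW ((hcl.mem_iff_infDist_zero ⟨b, hb⟩).2 hx)
  · have h1 : Metric.infDist x Wᶜ = 0 := Metric.infDist_zero_of_mem hxW
    rw [h1, zero_sub, neg_eq_zero] at hx
    rw [hWo.frontier_eq]
    refine ⟨?_, hxW⟩
    exact (Metric.mem_closure_iff_infDist_zero ⟨t, ht⟩).2 hx

theorem sdist_eq_zero {x : unitInterval × A} (hWo : IsOpen W) (hx : x ∈ frontier W) :
    sdist W x = 0 := by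
  have h1 := sdist_nonneg (W := W) hx.1
  have h2 : x ∉ W := by rw [hWo.frontier_eq] at hx; exact hx.2
  exact le_antisymm (sdist_nonpos h2) h1

/-- Small signed distance forces small `w`. -/
theorem exists_small [CompactSpace A] (hWo : IsOpen W) {b t : unitInterval × A} (hb : b ∉ W)
    (ht : t ∈ W) {w : unitInterval × A → ℝ} (hw : Continuous w) (hz : ∀ x ∈ frontier W, w x = 0)
    {η : ℝ} (hη : 0 < η) : ∃ η' > 0, ∀ x, |sdist W x| < η' → |w x| < η := by
  have hKc : IsCompact {x | η ≤ |w x|} := (isClosed_le continuous_const hw.abs).isCompact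
  by_cases hne : ({x | η ≤ |w x|} : Set (unitInterval × A)).Nonempty
  · obtain ⟨x0, hx0, hmin⟩ := hKc.exists_isMinOn hne (f := fun x => |sdist W x|)
      continuous_sdist.abs.continuousOn
    refine ⟨|sdist W x0|, ?_, ?_⟩
    · rw [gt_iff_lt, abs_pos]
      intro h0
      have h1 := hz x0 (mem_frontier_of_sdist hWo hb ht h0)
      simp only [mem_ofPred_eq, h1, abs_zero] at hx0
      linarith
    · intro x hx
      by_contra hcon
      push Not at hcon
      have : |sdist W x0| ≤ |sdist W x| := hmin (show x ∈ {x | η ≤ |w x|} from hcon)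
      linarith
  · refine ⟨1, one_pos, ?_⟩
    intro x _
    by_contra hcon
    push Not at hcon
    exact hne ⟨x, hcon⟩

end data

end Pool.Agent.InscribedSimplex
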