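import Mathlib

set_option autoImplicit false

open Set Topology

namespace Pool.Agent.InscribedSimplex

variable {V : Type*} [NormedAddCommGroup V] [InnerProductSpace ℝ V]

/-- There is a unit vector orthogonal to a given vector when the dimension is at least two. -/
theorem exists_unit_orthogonal [FiniteDimensional ℝ V] (hV : 2 ≤ Module.finrank ℝ V) (e : V) :
    ∃ u : V, ‖u‖ = 1 ∧ inner ℝ u e = 0 := by
  have h1 : Module.finrank ℝ (Submodule.span ℝ {e}) ≤ 1 :=
    (finrank_span_le_card ({e} : Set V)).trans (by simp)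
  have h2 := Submodule.finrank_add_finrank_orthogonal (Submodule.span ℝ {e})
  have h3 : 0 < Module.finrank ℝ (Submodule.span ℝ {e})ᗮ := by omega
  obtain ⟨x, hx⟩ := (Module.finrank_pos_iff_exists_ne_zero).1 h3
  have hx0 : (x : V) ≠ 0 := fun h => hx (Subtype.ext h)
  refine ⟨(‖(x : V)‖)⁻¹ • (x : V), ?_, ?_⟩
  · rw [norm_smul, norm_inv, norm_norm, inv_mul_cancel₀ (norm_ne_zero_iff.2 hx0)]
  · rw [real_inner_smul_left]
    have h4 := (Submodule.mem_orthogonal_singleton_iff_inner_left).1 x.2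
    rw [h4, mul_zero]

/-- Decomposition of a unit vector along another one. -/
theorem exists_decomp [FiniteDimensional ℝ V] (hV : 2 ≤ Module.finrank ℝ V) {e n : V}
    (he : ‖e‖ = 1) (hn : ‖n‖ = 1) :
    ∃ u : V, ‖u‖ = 1 ∧ inner ℝ u e = 0 ∧
      n = (inner ℝ e n : ℝ) • e + √(1 - (inner ℝ e n) ^ 2) • u := by
  set μ : ℝ := inner ℝ e n with hμ
  set r : V := n - μ • e with hr
  have hre : inner ℝ r e = 0 := by
    rw [hr, inner_sub_left, real_inner_smul_left, real_inner_self_eq_norm_sq, he,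
      real_inner_comm, ← hμ]
    ring
  have hrn : ‖r‖ ^ 2 = 1 - μ ^ 2 := by
    rw [hr, norm_sub_sq_real, norm_smul, he, hn, real_inner_smul_right, real_inner_comm, ← hμ,
      mul_one, Real.norm_eq_abs, sq_abs]
    ring
  have hrn' : √(1 - μ ^ 2) = ‖r‖ := by rw [← hrn, Real.sqrt_sq (norm_nonneg _)]
  by_cases h0 : r = 0
  · obtain ⟨u, hu1, hu2⟩ := exists_unit_orthogonal hV e
    refine ⟨u, hu1, hu2, ?_⟩
    rw [hrn', h0, norm_zero, zero_smul, add_zero]
    rw [hr, sub_eq_zero] at h0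
    exact h0
  · have hr0 : ‖r‖ ≠ 0 := norm_ne_zero_iff.2 h0
    refine ⟨(‖r‖)⁻¹ • r, ?_, ?_, ?_⟩
    · rw [norm_smul, norm_inv, norm_norm, inv_mul_cancel₀ hr0]
    · rw [real_inner_smul_left, hre, mul_zero]
    · rw [hrn', smul_smul, mul_inv_cancel₀ hr0, one_smul, hr]
      abel

/-- The top point in case the top slice is not entirely positive. -/
theorem exists_top_point [FiniteDimensional ℝ V]
    (hV : 2 ≤ Module.finrank ℝ V) {T : Set (Metric.sphere (0 : V) 1)} (hT : IsOpen T)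
    {n : Metric.sphere (0 : V) 1} {ε : ℝ} (hε1 : ε < 1)
    (hcap : ∀ a : Metric.sphere (0 : V) 1, ε ≤ inner ℝ (a : V) (n : V) → a ∈ T)
    (hne : ∃ a, a ∉ T) {c₀ s₀ ε' : ℝ} (hs : 0 < s₀) (hc1 : c₀ < 1)
    (hε' : 0 < ε') (hcond : ε * (1 - c₀) < s₀ * √(1 - ε ^ 2) * ε') :
    ∃ (e : Metric.sphere (0 : V) 1) (u : V), ‖u‖ = 1 ∧ inner ℝ u (e : V) = 0 ∧
      e ∈ closure T ∧ e ∉ T ∧
      ∀ (a : Metric.sphere (0 : V) 1) (x : V), inner ℝ x (e : V) = 0 →
        ε' ≤ inner ℝ x u → (a : V) = c₀ • (e : V) + s₀ • x → a ∈ T := by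
  have hKc : IsCompact Tᶜ := hT.isClosed_compl.isCompact
  obtain ⟨e, heT, hmax⟩ := hKc.exists_isMaxOn hne
    (f := fun a : Metric.sphere (0 : V) 1 => (inner ℝ (a : V) (n : V) : ℝ))
    (by fun_prop)
  have he : ‖(e : V)‖ = 1 := by simp
  have hn : ‖(n : V)‖ = 1 := by simp
  set μ : ℝ := inner ℝ (e : V) (n : V) with hμ
  have hμε : μ < ε := by
    by_contra hcon
    push Not at hcon
    exact heT (hcap e hcon)
  have hbig : ∀ a : Metric.sphere (0 : V) 1, μ < inner ℝ (a : V) (n : V) → a ∈ T := by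
    intro a ha
    by_contra haT
    have h1 : (inner ℝ (a : V) (n : V) : ℝ) ≤ μ := hmax (show a ∈ Tᶜ from haT)
    linarith
  obtain ⟨u, hu1, hu2, hu3⟩ := exists_decomp hV he hn
  rw [← hμ] at hu3
  have hμ1 : -1 ≤ μ := by
    have := abs_real_inner_le_norm (e : V) (n : V)
    rw [he, hn, ← hμ, mul_one, abs_le] at this
    exact this.1
  have hμ2 : μ ^ 2 ≤ 1 := by nlinarith
  refine ⟨e, u, hu1, hu2, ?_, heT, ?_⟩
  · -- closure
    have hnorm : ∀ θ : ℝ, ‖Real.cos θ • (e : V) + Real.sin θ • u‖ = 1 := by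
      intro θ
      have h1 : ‖Real.cos θ • (e : V) + Real.sin θ • u‖ ^ 2 = 1 := by
        rw [norm_add_sq_real, norm_smul, norm_smul, he, hu1, real_inner_smul_left,
          real_inner_smul_right, real_inner_comm, hu2]
        simp only [Real.norm_eq_abs, mul_one, sq_abs, mul_zero, add_zero]
        exact Real.cos_sq_add_sin_sq θ
      have h2 := norm_nonneg (Real.cos θ • (e : V) + Real.sin θ • u)
      nlinarith
    let a : ℝ → Metric.sphere (0 : V) 1 := fun θ =>
      ⟨Real.cos θ • (e : V) + Real.sin θ • u, by simpa using hnorm θ⟩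
    have ha : Continuous a := by
      apply Continuous.subtype_mk
      fun_prop
    have ha0 : a 0 = e := by
      apply Subtype.ext
      simp [a]
    have htend : Filter.Tendsto a (𝓝[>] 0) (𝓝 e) := by
      have h1 : Filter.Tendsto a (𝓝 0) (𝓝 (a 0)) := ha.tendsto 0
      rw [ha0] at h1
      exact h1.mono_left nhdsWithin_le_nhds
    have hα1 : 0 < Real.arccos μ := by rw [Real.arccos_pos]; linarith
    have hα2 : Real.arccos μ ≤ Real.pi := Real.arccos_le_pi μ
    have hcosα : Real.cos (Real.arccos μ) = μ := Real.cos_arccos hμ1 (by linarith)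
    have hsinα : Real.sin (Real.arccos μ) = √(1 - μ ^ 2) := Real.sin_arccos μ
    refine mem_closure_of_tendsto htend ?_
    filter_upwards [Ioo_mem_nhdsGT hα1] with θ hθ
    apply hbig
    have h1 : inner ℝ ((a θ : Metric.sphere (0 : V) 1) : V) (n : V) =
        Real.cos (Real.arccos μ - θ) := by
      rw [Real.cos_sub, hcosα, hsinα]
      show inner ℝ (Real.cos θ • (e : V) + Real.sin θ • u) (n : V) = _
      have h2 : inner ℝ u (n : V) = √(1 - μ ^ 2) := by
        rw [hu3, inner_add_right, real_inner_smul_right, real_inner_smul_right, hu2,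
          real_inner_self_eq_norm_sq, hu1]
        ring
      rw [inner_add_left, real_inner_smul_left, real_inner_smul_left, h2, ← hμ]
      ring
    rw [h1]
    have h3 := Real.cos_lt_cos_of_nonneg_of_le_pi (x := Real.arccos μ - θ) (y := Real.arccos μ)
      (by linarith [hθ.2]) hα2 (by linarith [hθ.1])
    rw [hcosα] at h3
    exact h3
  · intro a x hx1 hx2 hax
    apply hbig
    have h2 : inner ℝ x (n : V) = √(1 - μ ^ 2) * inner ℝ x u := by
      rw [hu3, inner_add_right, real_inner_smul_right, real_inner_smul_right, hx1]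
      ring
    rw [hax, inner_add_left, real_inner_smul_left, real_inner_smul_left, h2, ← hμ]
    have hxu : 0 < inner ℝ x u := lt_of_lt_of_le hε' hx2
    have hsq : 0 ≤ √(1 - μ ^ 2) := Real.sqrt_nonneg _
    rcases lt_or_ge μ 0 with hneg | hpos
    · have h3 : 0 ≤ s₀ * (√(1 - μ ^ 2) * inner ℝ x u) := by positivity
      nlinarith
    · have h4 : √(1 - ε ^ 2) ≤ √(1 - μ ^ 2) := by
        apply Real.sqrt_le_sqrt
        nlinarith
      have h5 : s₀ * √(1 - ε ^ 2) * ε' ≤ s₀ * (√(1 - μ ^ 2) * inner ℝ x u) := by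
        rw [mul_assoc]
        apply mul_le_mul_of_nonneg_left _ hs.le
        exact mul_le_mul h4 hx2 hε'.le hsq
      have h6 : μ * (1 - c₀) ≤ ε * (1 - c₀) := mul_le_mul_of_nonneg_right hμε.le (by linarith)
      linarith

end Pool.Agent.InscribedSimplex
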