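import Mathlib
import Pool.Agent.InscribedSimplex.Separator
import Pool.Agent.InscribedSimplex.Frame
import Pool.Agent.InscribedSimplex.Top

set_option autoImplicit false

open Set Topology

namespace Pool.Agent.InscribedSimplex

/-- The numbers `c 0, …, c (k - 1)` are the cosines of a nondegenerate chain configuration of
`k + 1` unit vectors. -/
def GoodCos : ℕ → (ℕ → ℝ) → Prop
  | 0, _ => True
  | k + 1, c => c 0 ^ 2 < 1 ∧ GoodCos k (fun i => (c (i + 1) - c 0 ^ 2) / (1 - c 0 ^ 2))

/-- The catching property: a function on `I × sphere`, nonpositive at the bottom and nonnegative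
on an `ε`-cap at the top, nearly vanishes on a chain configuration contained in one slice. -/
def Catch (k : ℕ) (c : ℕ → ℝ) (ε : ℝ) : Prop :=
  ∀ (V : Type) [NormedAddCommGroup V] [InnerProductSpace ℝ V] [FiniteDimensional ℝ V],
    Module.finrank ℝ V = k + 1 →
    ∀ w : unitInterval × Metric.sphere (0 : V) 1 → ℝ, Continuous w →
    (∀ a, w (0, a) ≤ 0) →
    ∀ n : Metric.sphere (0 : V) 1,
    (∀ a : Metric.sphere (0 : V) 1, ε ≤ inner ℝ (a : V) (n : V) → 0 ≤ w (1, a)) →
    ∀ η : ℝ, 0 < η →
    ∃ (t : unitInterval) (y : Fin (k + 1) → Metric.sphere (0 : V) 1),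
      (∀ i j : Fin (k + 1), i < j → inner ℝ (y i : V) (y j : V) = c i) ∧ ∀ i, |w (t, y i)| < η

theorem catch_zero (c : ℕ → ℝ) : Catch 0 c (1 / 2) := by
  intro V _ _ _ hV w hw h0 n h1 η hη
  have hcont : Continuous fun t : unitInterval => w (t, n) := by fun_prop
  have hn1 : 0 ≤ w (1, n) := by
    apply h1
    rw [real_inner_self_eq_norm_sq]
    simp
    norm_num
  have hmem : (0 : ℝ) ∈ range fun t : unitInterval => w (t, n) :=
    mem_range_of_exists_le_of_exists_ge hcont ⟨0, h0 n⟩ ⟨1, hn1⟩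
  obtain ⟨t, ht⟩ := hmem
  refine ⟨t, fun _ => n, ?_, ?_⟩
  · intro i j hij
    omega
  · intro i
    have h2 : w (t, n) = 0 := ht
    rw [h2, abs_zero]
    exact hη

section cap

variable {V : Type*} [NormedAddCommGroup V] [InnerProductSpace ℝ V]

theorem isPreconnected_cap (n : Metric.sphere (0 : V) 1) {ε : ℝ} (hε : 0 < ε) :
    IsPreconnected {a : Metric.sphere (0 : V) 1 | ε ≤ inner ℝ (a : V) (n : V)} := by
  rw [← Topology.IsInducing.subtypeVal.isPreconnected_image]
  set D : Set V := {v | ε * ‖v‖ ≤ inner ℝ v (n : V) ∧ 0 < (inner ℝ v (n : V) : ℝ)} with hD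
  have hconv : Convex ℝ D := by
    intro x hx y hy a b ha hb hab
    obtain ⟨hx1, hx2⟩ := hx
    obtain ⟨hy1, hy2⟩ := hy
    constructor
    · have h1 : ‖a • x + b • y‖ ≤ a * ‖x‖ + b * ‖y‖ := by
        refine (norm_add_le _ _).trans ?_
        rw [norm_smul, norm_smul, Real.norm_of_nonneg ha, Real.norm_of_nonneg hb]
      rw [inner_add_left, real_inner_smul_left, real_inner_smul_left]
      have h2 := mul_le_mul_of_nonneg_left h1 hε.le
      have h3 := mul_le_mul_of_nonneg_left hx1 ha
      have h4 := mul_le_mul_of_nonneg_left hy1 hb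
      nlinarith
    · rw [inner_add_left, real_inner_smul_left, real_inner_smul_left]
      rcases eq_or_lt_of_le ha with h | h
      · have hb1 : b = 1 := by linarith
        rw [← h, hb1]; linarith
      · have := mul_pos h hx2
        have := mul_nonneg hb hy2.le
        linarith
  have himg : (Subtype.val '' {a : Metric.sphere (0 : V) 1 | ε ≤ inner ℝ (a : V) (n : V)}) =
      (fun v : V => ‖v‖⁻¹ • v) '' D := by
    ext v
    constructor
    · rintro ⟨a, ha, rfl⟩
      have hna : ‖(a : V)‖ = 1 := by simp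
      have ha' : ε ≤ inner ℝ (a : V) (n : V) := ha
      refine ⟨a, ⟨?_, ?_⟩, ?_⟩
      · rw [hna, mul_one]; exact ha'
      · linarith
      · beta_reduce
        rw [hna, inv_one, one_smul]
    · rintro ⟨x, ⟨hx1, hx2⟩, rfl⟩
      have hx0 : x ≠ 0 := by
        rintro rfl
        rw [inner_zero_left] at hx2
        exact lt_irrefl _ hx2
      have hnx : 0 < ‖x‖ := norm_pos_iff.2 hx0
      refine ⟨⟨‖x‖⁻¹ • x, ?_⟩, ?_, rfl⟩
      · rw [mem_sphere_zero_iff_norm, norm_smul, norm_inv, norm_norm, inv_mul_cancel₀ hnx.ne']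
      · show ε ≤ inner ℝ (‖x‖⁻¹ • x) (n : V)
        rw [real_inner_smul_left, inv_mul_eq_div, le_div_iff₀ hnx]
        exact hx1
  rw [himg]
  apply hconv.isPreconnected.image
  intro x hx
  have hx0 : x ≠ 0 := by
    rintro rfl
    have := hx.2
    rw [inner_zero_left] at this
    exact lt_irrefl _ this
  apply ContinuousAt.continuousWithinAt
  apply ContinuousAt.smul
  · exact continuousAt_id.norm.inv₀ (norm_ne_zero_iff.2 hx0)
  · exact continuousAt_id

end cap

theorem catch_step {k : ℕ} {c : ℕ → ℝ} {ε ε' : ℝ} (hc : c 0 ^ 2 < 1) (hε' : 0 < ε')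
    (ih : Catch k (fun i => (c (i + 1) - c 0 ^ 2) / (1 - c 0 ^ 2)) ε')
    (hε : 0 < ε) (hε1 : ε < 1)
    (hcond : ε * (1 - c 0) < √(1 - c 0 ^ 2) * √(1 - ε ^ 2) * ε') : Catch (k + 1) c ε := by
  intro V _ _ _ hV w hw h0 n h1 η hη
  have hrank : 1 < Module.rank ℝ V := by
    rw [← Module.finrank_eq_rank, hV]
    exact_mod_cast (by omega : 1 < k + 1 + 1)
  have : PreconnectedSpace (Metric.sphere (0 : V) 1) :=
    Subtype.preconnectedSpace (isPreconnected_sphere hrank 0 1)
  have : Fact (Module.finrank ℝ V = (k + 1) + 1) := ⟨hV⟩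
  have : LocallyPathConnectedSpace (Metric.sphere (0 : V) 1) :=
    ChartedSpace.locallyPathConnectedSpace (EuclideanSpace ℝ (Fin (k + 1))) _
  -- a perturbation of `w`
  set w' : unitInterval × Metric.sphere (0 : V) 1 → ℝ :=
    fun x => w x + η / 2 * (x.1 : ℝ) with hw'
  have hw'c : Continuous w' := by fun_prop
  have hclose : ∀ x, |w x - w' x| ≤ η / 2 := by
    intro x
    have h2 := x.1.2.1
    have h3 := x.1.2.2
    simp only [hw', sub_add_cancel_left, abs_neg]
    rw [abs_of_nonneg (by positivity)]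
    nlinarith
  have h0' : ∀ a, w' (0, a) ≤ 0 := by
    intro a
    have := h0 a
    simp only [hw', Set.Icc.coe_zero, mul_zero, add_zero]
    exact this
  have h1' : ∀ a ∈ {a : Metric.sphere (0 : V) 1 | ε ≤ inner ℝ (a : V) (n : V)},
      0 < w' (1, a) := by
    intro a ha
    have := h1 a ha
    simp only [hw', Set.Icc.coe_one, mul_one]
    linarith
  have hnmem : n ∈ {a : Metric.sphere (0 : V) 1 | ε ≤ inner ℝ (a : V) (n : V)} := by
    show ε ≤ inner ℝ (n : V) (n : V)
    rw [real_inner_self_eq_norm_sq]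
    simp only [norm_eq_of_mem_sphere, one_pow]
    exact hε1.le
  obtain ⟨W, hWo, hZ, hbot, htop, hzero⟩ := exists_separator hw'c h0' (isPreconnected_cap n hε)
    hnmem h1'
  obtain ⟨η', hη', hsmall⟩ := exists_small hWo (hbot n) (htop n hnmem) hw'c hzero (half_pos hη)
  obtain ⟨z, hz, hlow⟩ := exists_low hWo hbot (htop n hnmem)
  set s₀ : ℝ := √(1 - c 0 ^ 2) with hs₀
  have hs₀pos : 0 < s₀ := Real.sqrt_pos.2 (by linarith)
  have hs₀sq : s₀ ^ 2 = 1 - c 0 ^ 2 := Real.sq_sqrt (by linarith)
  have hc1 : c 0 < 1 := by nlinarith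
  -- the top point
  have htoppt : ∃ z' ∈ frontier W, ∃ u : V, ‖u‖ = 1 ∧ inner ℝ u (z'.2 : V) = 0 ∧
      ∀ (a : Metric.sphere (0 : V) 1) (x : V), inner ℝ x (z'.2 : V) = 0 →
        ε' ≤ inner ℝ x u → (a : V) = c 0 • (z'.2 : V) + s₀ • x → (z'.1, a) ∈ closure W := by
    by_cases hall : ∀ a, ((1 : unitInterval), a) ∈ W
    · obtain ⟨z', hz', hhigh⟩ := exists_high (n := n) hbot hall
      obtain ⟨u, hu1, hu2⟩ := exists_unit_orthogonal (V := V) (by omega) (z'.2 : V)
      exact ⟨z', hz', u, hu1, hu2, fun a x _ _ _ => hhigh a⟩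
    · push Not at hall
      have hT : IsOpen {a : Metric.sphere (0 : V) 1 | ((1 : unitInterval), a) ∈ W} :=
        hWo.preimage (by fun_prop)
      obtain ⟨e, u, hu1, hu2, hecl, heT, hprop⟩ := exists_top_point (V := V) (by omega) hT
        (n := n) hε1 (fun a ha => htop a ha) hall (c₀ := c 0) hs₀pos hc1 hε' hcond
      refine ⟨(1, e), ?_, u, hu1, hu2, ?_⟩
      · rw [hWo.frontier_eq]
        refine ⟨?_, heT⟩
        have hcont : Continuous fun a : Metric.sphere (0 : V) 1 => ((1 : unitInterval), a) := by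
          fun_prop
        exact map_mem_closure hcont hecl (fun a ha => ha)
      · intro a x hx1 hx2 hax
        exact subset_closure (hprop a x hx1 hx2 hax)
  obtain ⟨z', hz', u, hu1, hu2, hprop⟩ := htoppt
  -- the path
  have hO : IsOpen {x | |sdist W x| < η'} := isOpen_lt continuous_sdist.abs continuous_const
  obtain ⟨p, hpc, hp0, hp1, hpO⟩ := exists_path_near hZ hO (fun x hx => by
    show |sdist W x| < η'
    rw [sdist_eq_zero hWo hx, abs_zero]; exact hη') hz hz'
  obtain ⟨g, hg, hgc⟩ := exists_frame (fun s => ((p s).2 : V)) (by fun_prop) (fun s => by simp)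
  set K : Submodule ℝ V := (Submodule.span ℝ {((p 0).2 : V)})ᗮ with hK
  have hKrank : Module.finrank ℝ K = k + 1 := by
    apply Submodule.finrank_orthogonal_span_singleton
    have : ‖((p 0).2 : V)‖ = 1 := by simp
    intro h0
    rw [h0, norm_zero] at this
    exact zero_ne_one this
  have hgK : ∀ s, ∀ v : K, inner ℝ (g s (v : V)) ((p s).2 : V) = 0 := by
    intro s v
    have h2 := (Submodule.mem_orthogonal_singleton_iff_inner_left).1 v.2
    have h3 := hg s
    beta_reduce at h3
    rw [← h3, LinearIsometryEquiv.inner_map_map]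
    exact h2
  have hgn : ∀ s, ∀ v : Metric.sphere (0 : K) 1, ‖g s ((v : K) : V)‖ = 1 := by
    intro s v
    rw [LinearIsometryEquiv.norm_map]
    have : ‖(v : K)‖ = 1 := by simp
    exact this
  let Q : unitInterval × Metric.sphere (0 : K) 1 → Metric.sphere (0 : V) 1 := fun x =>
    ⟨c 0 • ((p x.1).2 : V) + s₀ • g x.1 ((x.2 : K) : V), by
      rw [mem_sphere_zero_iff_norm]
      have h2 : ‖c 0 • ((p x.1).2 : V) + s₀ • g x.1 ((x.2 : K) : V)‖ ^ 2 = 1 := by
        rw [norm_add_sq_real, norm_smul, norm_smul, hgn, real_inner_smul_left,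
          real_inner_smul_right, real_inner_comm, hgK]
        simp only [norm_eq_of_mem_sphere, Real.norm_eq_abs, mul_one, sq_abs, mul_zero, add_zero]
        rw [hs₀sq]; ring
      have h3 := norm_nonneg (c 0 • ((p x.1).2 : V) + s₀ • g x.1 ((x.2 : K) : V))
      nlinarith⟩
  have hQc : Continuous Q := by
    apply Continuous.subtype_mk
    apply Continuous.add
    · fun_prop
    · apply Continuous.const_smul
      exact hgc.comp (by fun_prop : Continuous fun x : unitInterval × Metric.sphere (0 : K) 1 =>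
        (x.1, ((x.2 : K) : V)))
  have hn'mem : (g 1).symm u ∈ K := by
    rw [hK, Submodule.mem_orthogonal_singleton_iff_inner_left]
    have h2 : inner ℝ (g 1 ((g 1).symm u)) (g 1 ((p 0).2 : V)) = 0 := by
      rw [LinearIsometryEquiv.apply_symm_apply]
      have h3 := hg 1
      beta_reduce at h3
      rw [h3, hp1]
      exact hu2
    rw [LinearIsometryEquiv.inner_map_map] at h2
    exact h2
  let n' : Metric.sphere (0 : K) 1 := ⟨⟨(g 1).symm u, hn'mem⟩, by
    rw [mem_sphere_zero_iff_norm]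
    show ‖(g 1).symm u‖ = 1
    rw [LinearIsometryEquiv.norm_map, hu1]⟩
  obtain ⟨s, y, hy1, hy2⟩ := ih K hKrank (fun x => sdist W ((p x.1).1, Q x))
    (continuous_sdist.comp (by fun_prop))
    (by
      intro a
      apply sdist_nonpos
      simp only [hp0]
      exact hlow _)
    n'
    (by
      intro a ha
      apply sdist_nonneg
      simp only [hp1]
      refine hprop _ (g 1 ((a : K) : V)) ?_ ?_ ?_
      · rw [← hp1]; exact hgK 1 _
      · have h2 : inner ℝ (g 1 ((a : K) : V)) u = inner ℝ ((a : K) : V) ((g 1).symm u) := by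
          rw [← LinearIsometryEquiv.inner_map_map (g 1) ((a : K) : V) ((g 1).symm u),
            LinearIsometryEquiv.apply_symm_apply]
        rw [h2]
        exact ha
      · show c 0 • ((p 1).2 : V) + s₀ • g 1 ((a : K) : V) = _
        rw [hp1])
    η' hη'
  refine ⟨(p s).1, Fin.cons (p s).2 (fun j => Q (s, y j)), ?_, ?_⟩
  · intro i j hij
    have hj : j ≠ 0 := by
      rintro rfl
      exact absurd hij (Fin.not_lt_zero i)
    obtain ⟨j', rfl⟩ := Fin.exists_succ_eq.2 hj
    rw [Fin.cons_succ]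
    have hval : ∀ v : Metric.sphere (0 : K) 1, ((Q (s, v) : Metric.sphere (0 : V) 1) : V) =
        c 0 • ((p s).2 : V) + s₀ • g s ((v : K) : V) := fun _ => rfl
    by_cases hi : i = 0
    · subst hi
      rw [Fin.cons_zero, hval, inner_add_right, real_inner_smul_right, real_inner_smul_right,
        real_inner_comm, real_inner_comm (g s _), hgK, real_inner_self_eq_norm_sq]
      simp
    · obtain ⟨i', rfl⟩ := Fin.exists_succ_eq.2 hi
      have hij' : i' < j' := Fin.succ_lt_succ_iff.1 hij
      have h2 := hy1 i' j' hij'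
      rw [Fin.cons_succ, hval, hval, inner_add_left, inner_add_right, inner_add_right]
      simp only [real_inner_smul_left, real_inner_smul_right, hgK,
        LinearIsometryEquiv.inner_map_map, real_inner_self_eq_norm_sq]
      rw [real_inner_comm, hgK]
      have h3 : inner ℝ ((y i' : K) : V) ((y j' : K) : V) =
          (c (i' + 1) - c 0 ^ 2) / (1 - c 0 ^ 2) := h2
      rw [h3]
      have h4 : 1 - c 0 ^ 2 ≠ 0 := by linarith
      have h6 : ‖c 0 • ((p s).2 : V)‖ ^ 2 = c 0 ^ 2 := by
        rw [norm_smul, norm_eq_of_mem_sphere, mul_one, Real.norm_eq_abs, sq_abs]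
      simp only [Fin.val_succ]
      have h5 : s₀ * (s₀ * ((c (i' + 1) - c 0 ^ 2) / (1 - c 0 ^ 2))) = c (i' + 1) - c 0 ^ 2 := by
        rw [← mul_assoc, ← sq, hs₀sq]
        field_simp
      rw [h5, h6]
      ring
  · have hbound : ∀ x, |sdist W x| < η' → |w x| < η := by
      intro x hx
      have h2 := hsmall x hx
      have h3 := hclose x
      have h4 : |w x| ≤ |w x - w' x| + |w' x| := by
        have := abs_add_le (w x - w' x) (w' x)
        rw [sub_add_cancel] at this
        exact this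
      linarith
    intro i
    refine Fin.cases ?_ (fun j => ?_) i
    · rw [Fin.cons_zero]
      exact hbound _ (hpO s)
    · rw [Fin.cons_succ]
      exact hbound _ (hy2 j)

theorem exists_catch : ∀ (k : ℕ) (c : ℕ → ℝ), GoodCos k c → ∃ ε, 0 < ε ∧ ε < 1 ∧ Catch k c ε := by
  intro k
  induction k with
  | zero =>
    intro c _
    exact ⟨1 / 2, by norm_num, by norm_num, catch_zero c⟩
  | succ k ih =>
    intro c hc
    obtain ⟨hc0, hc'⟩ := hc
    obtain ⟨ε', hε', hε'1, hcatch⟩ := ih _ hc'
    have hs₀pos : 0 < √(1 - c 0 ^ 2) := Real.sqrt_pos.2 (by linarith)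
    refine ⟨min (1 / 2) (√(1 - c 0 ^ 2) * ε' / 4), by positivity, ?_, ?_⟩
    · exact (min_le_left _ _).trans_lt (by norm_num)
    · set ε := min (1 / 2) (√(1 - c 0 ^ 2) * ε' / 4) with hε
      have hεpos : 0 < ε := by positivity
      have h1 : ε ≤ 1 / 2 := min_le_left _ _
      have h2 : ε ≤ √(1 - c 0 ^ 2) * ε' / 4 := min_le_right _ _
      refine catch_step hc0 hε' hcatch hεpos (by linarith) ?_
      have h3 : 1 / 2 < √(1 - ε ^ 2) := by
        rw [Real.lt_sqrt (by norm_num)]
        nlinarith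
      have h4 : -1 < c 0 := by nlinarith
      have h5 : ε * (1 - c 0) < ε * 2 := by
        apply mul_lt_mul_of_pos_left _ hεpos
        linarith
      have h6 : √(1 - c 0 ^ 2) * (1 / 2) * ε' ≤ √(1 - c 0 ^ 2) * √(1 - ε ^ 2) * ε' := by
        apply mul_le_mul_of_nonneg_right _ hε'.le
        exact mul_le_mul_of_nonneg_left h3.le hs₀pos.le
      linarith

end Pool.Agent.InscribedSimplex
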