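import Mathlib
import Pool.Agent.InscribedSimplex.Step

set_option autoImplicit false

open Set Topology

namespace Pool.Agent.InscribedSimplex

/-- Linearly independent unit vectors in chain position have good cosines. -/
theorem goodCos_of_linearIndependent {V : Type*} [NormedAddCommGroup V] [InnerProductSpace ℝ V] :
    ∀ (k : ℕ) (c : ℕ → ℝ) (e : Fin (k + 1) → V), LinearIndependent ℝ e → (∀ i, ‖e i‖ = 1) →
      (∀ i j : Fin (k + 1), i < j → inner ℝ (e i) (e j) = c i) → GoodCos k c := by
  intro k
  induction k with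
  | zero =>
    intro c e _ _ _
    trivial
  | succ k ih =>
    intro c e hli hn hc
    have hnorm : ∀ j : Fin (k + 1), ‖e j.succ - c 0 • e 0‖ ^ 2 = 1 - c 0 ^ 2 := by
      intro j
      have h1 : inner ℝ (e 0) (e j.succ) = c 0 := hc 0 j.succ (Fin.succ_pos j)
      rw [norm_sub_sq_real, norm_smul, real_inner_smul_right, real_inner_comm, h1, hn, hn,
        mul_one, Real.norm_eq_abs, sq_abs]
      ring
    have hlin : ∀ a : Fin (k + 1) → ℝ, ∑ j, a j • (e j.succ - c 0 • e 0) = 0 → ∀ j, a j = 0 := by
      intro a ha j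
      rw [Fintype.linearIndependent_iff] at hli
      have h2 := hli (Fin.cons (-(∑ j, a j * c 0)) a) (by
        rw [Fin.sum_univ_succ]
        simp only [Fin.cons_zero, Fin.cons_succ]
        rw [← ha]
        simp only [smul_sub, Finset.sum_sub_distrib, smul_smul, ← Finset.sum_smul, neg_smul]
        abel) j.succ
      simpa using h2
    have hc0 : c 0 ^ 2 < 1 := by
      have h1 : e (Fin.succ 0) - c 0 • e 0 ≠ 0 := by
        intro h0
        have h2 := hlin (Pi.single 0 1) (by
          rw [Finset.sum_eq_single 0]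
          · rw [h0, smul_zero]
          · intro b _ hb
            rw [Pi.single_eq_of_ne hb, zero_smul]
          · intro h; exact absurd (Finset.mem_univ _) h) 0
        rw [Pi.single_eq_same] at h2
        exact one_ne_zero h2
      have h3 : 0 < ‖e (Fin.succ 0) - c 0 • e 0‖ ^ 2 := by positivity
      rw [hnorm] at h3
      linarith
    refine ⟨hc0, ?_⟩
    set s := √(1 - c 0 ^ 2) with hs
    have hspos : 0 < s := Real.sqrt_pos.2 (by linarith)
    have hssq : s ^ 2 = 1 - c 0 ^ 2 := Real.sq_sqrt (by linarith)
    refine ih _ (fun j => s⁻¹ • (e j.succ - c 0 • e 0)) ?_ ?_ ?_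
    · rw [Fintype.linearIndependent_iff]
      intro a ha j
      have h1 := hlin (fun j => a j * s⁻¹) (by
        rw [← ha]
        simp only [smul_smul]) j
      beta_reduce at h1
      rcases mul_eq_zero.1 h1 with h | h
      · exact h
      · exact absurd h (inv_ne_zero hspos.ne')
    · intro j
      rw [norm_smul, norm_inv, Real.norm_of_nonneg hspos.le]
      have h1 : ‖e j.succ - c 0 • e 0‖ = s := by
        rw [hs, ← hnorm j, Real.sqrt_sq (norm_nonneg _)]
      rw [h1, inv_mul_cancel₀ hspos.ne']
    · intro i j hij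
      have h1 : inner ℝ (e 0) (e i.succ) = c 0 := hc 0 i.succ (Fin.succ_pos i)
      have h2 : inner ℝ (e 0) (e j.succ) = c 0 := hc 0 j.succ (Fin.succ_pos j)
      have h3 := hc i.succ j.succ (Fin.succ_lt_succ_iff.2 hij)
      rw [Fin.val_succ] at h3
      rw [real_inner_smul_left, real_inner_smul_right, inner_sub_left, inner_sub_right,
        inner_sub_right, real_inner_smul_left, real_inner_smul_right, real_inner_smul_left,
        real_inner_smul_right, real_inner_comm (e 0) (e i.succ), h1, h2, h3,
        real_inner_self_eq_norm_sq, hn, ← hssq]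
      field_simp
      ring

/-- Two `(k+2)`-point configurations in `ℝ^(k+1)` with the same distances, the first of them
affinely independent, differ by an isometry. -/
theorem exists_isometry {k : ℕ} {A B : Fin (k + 2) → EuclideanSpace ℝ (Fin (k + 1))}
    (hA : AffineIndependent ℝ A) (hAB : ∀ i j, dist (A i) (A j) = dist (B i) (B j)) :
    ∃ g : EuclideanSpace ℝ (Fin (k + 1)) ≃ᵢ EuclideanSpace ℝ (Fin (k + 1)), ∀ i, g (A i) = B i := by
  set a : Fin (k + 1) → EuclideanSpace ℝ (Fin (k + 1)) := fun i => A i.succ - A 0 with ha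
  set b : Fin (k + 1) → EuclideanSpace ℝ (Fin (k + 1)) := fun i => B i.succ - B 0 with hb
  have hli : LinearIndependent ℝ a := by
    rw [affineIndependent_iff_linearIndependent_vsub ℝ A 0] at hA
    have h1 := hA.comp (fun i : Fin (k + 1) => (⟨i.succ, Fin.succ_ne_zero i⟩ :
      {x : Fin (k + 2) // x ≠ 0})) (by
        intro i j hij
        have := congrArg Subtype.val hij
        exact Fin.succ_injective _ this)
    exact h1
  have hinner : ∀ i j, inner ℝ (a i) (a j) = inner ℝ (b i) (b j) := by
    intro i j
    have key : ∀ C : Fin (k + 2) → EuclideanSpace ℝ (Fin (k + 1)),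
        inner ℝ (C i.succ - C 0) (C j.succ - C 0) =
          (dist (C i.succ) (C 0) ^ 2 + dist (C j.succ) (C 0) ^ 2 -
            dist (C i.succ) (C j.succ) ^ 2) / 2 := by
      intro C
      have h1 : C i.succ - C j.succ = (C i.succ - C 0) - (C j.succ - C 0) := by abel
      rw [dist_eq_norm, dist_eq_norm, dist_eq_norm, h1,
        norm_sub_sq_real (C i.succ - C 0) (C j.succ - C 0)]
      ring
    simp only [ha, hb, key, hAB]
  let bas : Module.Basis (Fin (k + 1)) ℝ (EuclideanSpace ℝ (Fin (k + 1))) :=
    basisOfLinearIndependentOfCardEqFinrank hli (by simp)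
  have hbas : ∀ i, bas i = a i := by
    intro i
    simp [bas]
  let L : EuclideanSpace ℝ (Fin (k + 1)) →ₗ[ℝ] EuclideanSpace ℝ (Fin (k + 1)) :=
    bas.constr ℝ b
  have hL : ∀ i, L (a i) = b i := by
    intro i
    rw [← hbas, Module.Basis.constr_basis]
  have hLinner : ∀ x y, inner ℝ (L x) (L y) = inner ℝ x y := by
    intro x y
    rw [← bas.sum_repr x, ← bas.sum_repr y]
    simp only [map_sum, map_smul, sum_inner, inner_sum, real_inner_smul_left,
      real_inner_smul_right, hbas, hL, hinner]
  let Li := (L.isometryOfInner hLinner).toLinearIsometryEquiv rfl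
  have hLi : ∀ x, Li x = L x := fun x => rfl
  refine ⟨(IsometryEquiv.subRight (A 0)).trans
    (Li.toIsometryEquiv.trans (IsometryEquiv.addRight (B 0))), ?_⟩
  intro i
  have hval : ((IsometryEquiv.subRight (A 0)).trans
    (Li.toIsometryEquiv.trans (IsometryEquiv.addRight (B 0)))) (A i) = L (A i - A 0) + B 0 := rfl
  rw [hval]
  refine Fin.cases ?_ (fun i => ?_) i
  · rw [sub_self, map_zero, zero_add]
  · have h1 : L (A i.succ - A 0) = B i.succ - B 0 := hL i
    rw [h1, sub_add_cancel]

end Pool.Agent.InscribedSimplex
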