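import Mathlib
import Pool.Agent.InscribedSimplex.Step

set_option autoImplicit false

open Set Topology

namespace Pool.Agent.InscribedSimplex

/-- Auxiliary function: `f` on `U` (perturbed to be strictly positive), zero outside. -/
theorem exists_aux {E : Type*} [MetricSpace E] {M U : Set E} (hM : IsClosed M) (hUo : IsOpen U)
    (hUM : U ⊆ M) (hUf : frontier U ⊆ frontier M) {f : E → ℝ} (hf : ContinuousOn f M)
    (hf0 : ∀ x ∈ M, 0 ≤ f x) (hff : ∀ x ∈ frontier M, f x = 0) (hUne : Uᶜ.Nonempty)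
    {κ : ℝ} (hκ : 0 < κ) :
    ∃ F : E → ℝ, Continuous F ∧ (∀ x ∈ U, 0 < F x) ∧ (∀ x ∉ U, F x = 0) ∧
      ∀ x ∈ U, ∀ y ∈ U, |f x - f y| ≤ |F x - F y| + κ * dist x y := by
  classical
  have hcl : closure U ⊆ M := closure_minimal hUM hM
  refine ⟨fun x => U.piecewise f (fun _ => 0) x + κ * Metric.infDist x Uᶜ, ?_, ?_, ?_, ?_⟩
  · apply Continuous.add
    · apply continuous_piecewise
      · intro a ha
        exact hff a (hUf ha)
      · exact hf.mono hcl
      · exact continuousOn_const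
    · exact continuous_const.mul (Metric.continuous_infDist_pt _)
  · intro x hx
    beta_reduce
    rw [Set.piecewise_eq_of_mem _ _ _ hx]
    have h1 : 0 < Metric.infDist x Uᶜ :=
      (hUo.isClosed_compl.notMem_iff_infDist_pos hUne).1 (fun h => h hx)
    have h2 := hf0 x (hUM hx)
    positivity
  · intro x hx
    beta_reduce
    rw [Set.piecewise_eq_of_notMem _ _ _ hx, Metric.infDist_zero_of_mem hx]
    ring
  · intro x hx y hy
    beta_reduce
    rw [Set.piecewise_eq_of_mem _ _ _ hx, Set.piecewise_eq_of_mem _ _ _ hy]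
    have h1 : |Metric.infDist x Uᶜ - Metric.infDist y Uᶜ| ≤ dist x y := by
      rw [← Real.dist_eq]
      have := (Metric.lipschitz_infDist_pt Uᶜ).dist_le_mul x y
      simpa using this
    have h2 : f x - f y = (f x + κ * Metric.infDist x Uᶜ - (f y + κ * Metric.infDist y Uᶜ)) -
        κ * (Metric.infDist x Uᶜ - Metric.infDist y Uᶜ) := by ring
    have h3 : |κ * (Metric.infDist x Uᶜ - Metric.infDist y Uᶜ)| ≤ κ * dist x y := by
      rw [abs_mul, abs_of_pos hκ]
      exact mul_le_mul_of_nonneg_left h1 hκ.le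
    have h4 := norm_sub_le (f x + κ * Metric.infDist x Uᶜ - (f y + κ * Metric.infDist y Uᶜ))
      (κ * (Metric.infDist x Uᶜ - Metric.infDist y Uᶜ))
    rw [← h2, Real.norm_eq_abs, Real.norm_eq_abs, Real.norm_eq_abs] at h4
    linarith

/-- The main approximate statement. -/
theorem exists_approx {k : ℕ} {c : ℕ → ℝ} {ε : ℝ} (hcatch : Catch k c ε)
    {U : Set (EuclideanSpace ℝ (Fin (k + 1)))} (hUo : IsOpen U)
    (hUc : IsConnected U) (hUb : Bornology.IsBounded U)
    {F : EuclideanSpace ℝ (Fin (k + 1)) → ℝ} (hF : Continuous F) (hpos : ∀ x ∈ U, 0 < F x)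
    (hzero : ∀ x ∉ U, F x = 0) {q p : EuclideanSpace ℝ (Fin (k + 1))} {ρ : ℝ} (hρ : 0 < ρ)
    (hball : Metric.ball q ρ ⊆ U) (hp : p ∉ U) (hpq : dist q p = ρ) {δ : ℝ} (hδ : 0 < δ)
    (hδρ : δ < 2 * ρ * ε) {κ : ℝ} (hκ : 0 < κ) :
    ∃ (x : EuclideanSpace ℝ (Fin (k + 1)))
      (y : Fin (k + 1) → Metric.sphere (0 : EuclideanSpace ℝ (Fin (k + 1))) 1),
      x ∈ U ∧ (∀ i, x + δ • (y i : EuclideanSpace ℝ (Fin (k + 1))) ∈ U) ∧
      (∀ i j : Fin (k + 1), i < j →
        inner ℝ (y i : EuclideanSpace ℝ (Fin (k + 1))) (y j : EuclideanSpace ℝ (Fin (k + 1)))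
          = c i) ∧
      ∀ i, |F (x + δ • (y i : EuclideanSpace ℝ (Fin (k + 1)))) - F x| < κ := by
  -- the maximum
  have hclc : IsCompact (closure U) := hUb.isCompact_closure
  obtain ⟨x₀, hx₀, hmax⟩ := hclc.exists_isMaxOn (hUc.nonempty.mono subset_closure) hF.continuousOn
  have hqU : q ∈ U := hball (Metric.mem_ball_self hρ)
  have hx₀pos : 0 < F x₀ := lt_of_lt_of_le (hpos q hqU) (hmax (subset_closure hqU))
  have hx₀U : x₀ ∈ U := by
    by_contra h
    rw [hzero x₀ h] at hx₀pos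
    exact lt_irrefl _ hx₀pos
  have hmax' : ∀ x, F x ≤ F x₀ := by
    intro x
    by_cases hx : x ∈ U
    · exact hmax (subset_closure hx)
    · rw [hzero x hx]; exact hx₀pos.le
  -- the direction at the boundary
  have hnorm : ‖q - p‖ = ρ := by rw [← dist_eq_norm]; exact hpq
  let n : Metric.sphere (0 : EuclideanSpace ℝ (Fin (k + 1))) 1 := ⟨ρ⁻¹ • (q - p), by
    rw [mem_sphere_zero_iff_norm, norm_smul, hnorm, norm_inv, Real.norm_of_nonneg hρ.le,
      inv_mul_cancel₀ hρ.ne']⟩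
  have hnval : (n : EuclideanSpace ℝ (Fin (k + 1))) = ρ⁻¹ • (q - p) := rfl
  have hpn : q - p = ρ • (n : EuclideanSpace ℝ (Fin (k + 1))) := by
    rw [hnval, smul_smul, mul_inv_cancel₀ hρ.ne', one_smul]
  set K : Set (Metric.sphere (0 : EuclideanSpace ℝ (Fin (k + 1))) 1) :=
    {a | ε ≤ inner ℝ (a : EuclideanSpace ℝ (Fin (k + 1)))
      (n : EuclideanSpace ℝ (Fin (k + 1)))} with hK
  have hKc : IsCompact K := (isClosed_le continuous_const (by fun_prop)).isCompact
  have hcapU : ∀ a ∈ K, p + δ • (a : EuclideanSpace ℝ (Fin (k + 1))) ∈ U := by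
    intro a ha
    apply hball
    have ha' : ε ≤ inner ℝ (a : EuclideanSpace ℝ (Fin (k + 1)))
      (n : EuclideanSpace ℝ (Fin (k + 1))) := ha
    rw [Metric.mem_ball, dist_eq_norm]
    have h1 : p + δ • (a : EuclideanSpace ℝ (Fin (k + 1))) - q =
        δ • (a : EuclideanSpace ℝ (Fin (k + 1))) -
          ρ • (n : EuclideanSpace ℝ (Fin (k + 1))) := by
      rw [← hpn]; abel
    have h2 : ‖δ • (a : EuclideanSpace ℝ (Fin (k + 1))) -
          ρ • (n : EuclideanSpace ℝ (Fin (k + 1)))‖ ^ 2 < ρ ^ 2 := by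
      rw [norm_sub_sq_real, norm_smul, norm_smul, real_inner_smul_left, real_inner_smul_right]
      simp only [norm_eq_of_mem_sphere, mul_one, Real.norm_eq_abs, sq_abs]
      have h3 : δ * δ < δ * (2 * ρ * ε) := mul_lt_mul_of_pos_left hδρ hδ
      have h4 : δ * ρ * ε ≤ δ * ρ * inner ℝ (a : EuclideanSpace ℝ (Fin (k + 1)))
        (n : EuclideanSpace ℝ (Fin (k + 1))) := mul_le_mul_of_nonneg_left ha' (by positivity)
      nlinarith
    rw [h1]
    exact lt_of_pow_lt_pow_left₀ 2 hρ.le h2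
  have hev : ∀ᶠ s in 𝓝 (0 : ℝ), ∀ a ∈ K,
      0 < F (p + s • (q - p) + δ • (a : EuclideanSpace ℝ (Fin (k + 1)))) -
        F (p + s • (q - p)) := by
    apply hKc.eventually_forall_of_forall_eventually
    intro a ha
    have hcont : Continuous fun z : ℝ × Metric.sphere (0 : EuclideanSpace ℝ (Fin (k + 1))) 1 =>
      F (p + z.1 • (q - p) + δ • (z.2 : EuclideanSpace ℝ (Fin (k + 1)))) -
        F (p + z.1 • (q - p)) := by fun_prop
    have hval : 0 < F (p + (0 : ℝ) • (q - p) + δ • (a : EuclideanSpace ℝ (Fin (k + 1)))) -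
        F (p + (0 : ℝ) • (q - p)) := by
      rw [zero_smul, add_zero, hzero p hp, sub_zero]
      exact hpos _ (hcapU a ha)
    exact hcont.continuousAt.eventually (lt_mem_nhds hval)
  have hev2 : ∀ᶠ s in 𝓝[>] (0 : ℝ), (∀ a ∈ K,
      0 < F (p + s • (q - p) + δ • (a : EuclideanSpace ℝ (Fin (k + 1)))) -
        F (p + s • (q - p))) ∧ s ∈ Ioo (0 : ℝ) 1 :=
    (hev.filter_mono nhdsWithin_le_nhds).and (Ioo_mem_nhdsGT one_pos)
  obtain ⟨s, hs1, hs2⟩ := hev2.exists
  set x₁ : EuclideanSpace ℝ (Fin (k + 1)) := p + s • (q - p) with hx₁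
  have hx₁U : x₁ ∈ U := by
    apply hball
    rw [Metric.mem_ball, dist_eq_norm]
    have h1 : x₁ - q = (s - 1) • (q - p) := by
      rw [hx₁, sub_smul, one_smul]; abel
    rw [h1, norm_smul, hnorm, Real.norm_eq_abs, abs_of_neg (by linarith [hs2.2])]
    nlinarith [hs2.1, hs2.2]
  -- the path
  have hpath : JoinedIn U x₀ x₁ :=
    (hUo.isConnected_iff_isPathConnected.1 hUc).joinedIn x₀ hx₀U x₁ hx₁U
  obtain ⟨Γ, hΓ⟩ := hpath
  obtain ⟨t₀, -, ht₀⟩ := isCompact_univ.exists_isMinOn (univ_nonempty (α := unitInterval))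
    (f := fun t => F (Γ t)) (by fun_prop)
  have hm₀ : 0 < F (Γ t₀) := hpos _ (hΓ t₀)
  have ht₀' : ∀ t, F (Γ t₀) ≤ F (Γ t) := fun t => ht₀ (mem_univ t)
  have hfr : Module.finrank ℝ (EuclideanSpace ℝ (Fin (k + 1))) = k + 1 := by simp
  obtain ⟨t, y, hy1, hy2⟩ := hcatch (EuclideanSpace ℝ (Fin (k + 1))) hfr
    (fun z => F (Γ z.1 + δ • (z.2 : EuclideanSpace ℝ (Fin (k + 1)))) - F (Γ z.1))
    (by fun_prop)
    (by
      intro a
      simp only [Path.source]
      have := hmax' (x₀ + δ • (a : EuclideanSpace ℝ (Fin (k + 1))))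
      linarith)
    n
    (by
      intro a ha
      simp only [Path.target]
      exact (hs1 a ha).le)
    (min κ (F (Γ t₀))) (lt_min hκ hm₀)
  refine ⟨Γ t, y, hΓ t, ?_, hy1, ?_⟩
  · intro i
    by_contra hi
    have h1 := hy2 i
    simp only [hzero _ hi, zero_sub, abs_neg] at h1
    rw [abs_of_pos (hpos _ (hΓ t))] at h1
    have h2 := ht₀' t
    have h3 := min_le_right κ (F (Γ t₀))
    linarith
  · intro i
    exact (hy2 i).trans_le (min_le_left _ _)

end Pool.Agent.InscribedSimplex
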