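import Mathlib
import Pool.Agent.InscribedSimplex.Assembly
import Pool.Agent.InscribedSimplex.Simplex

set_option autoImplicit false

open Set Topology Pointwise

namespace Pool.Agent.InscribedSimplex

/-- The cosines attached to a chain simplex. -/
noncomputable def cosOf {k : ℕ} (S : Fin (k + 2) → EuclideanSpace ℝ (Fin (k + 1))) (i : ℕ) : ℝ :=
  if h : i + 1 < k + 2 then
    1 - dist (S ⟨i + 1, h⟩) (S (Fin.last (k + 1))) ^ 2 / (2 * dist (S 0) (S (Fin.last (k + 1))) ^ 2)
  else 0

theorem dist_eq_last {k : ℕ} {S : Fin (k + 2) → EuclideanSpace ℝ (Fin (k + 1))}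
    (hch : ∀ i j l : Fin (k + 2), i < j → i < l → dist (S i) (S j) = dist (S i) (S l))
    {i j : Fin (k + 2)} (hij : i < j) : dist (S i) (S j) = dist (S i) (S (Fin.last (k + 1))) :=
  hch i j _ hij (hij.trans_le (Fin.le_last j))

theorem cosOf_eq {k : ℕ} {S : Fin (k + 2) → EuclideanSpace ℝ (Fin (k + 1))}
    (hch : ∀ i j l : Fin (k + 2), i < j → i < l → dist (S i) (S j) = dist (S i) (S l))
    {i j : Fin (k + 1)} (hij : i < j) :
    cosOf S i = 1 - dist (S i.succ) (S j.succ) ^ 2 /
      (2 * dist (S 0) (S (Fin.last (k + 1))) ^ 2) := by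
  unfold cosOf
  have h : (i : ℕ) + 1 < k + 2 := by omega
  rw [dif_pos h, dist_eq_last hch (Fin.succ_lt_succ_iff.2 hij)]
  rfl

theorem goodCos {k : ℕ} {S : Fin (k + 2) → EuclideanSpace ℝ (Fin (k + 1))}
    (hS : AffineIndependent ℝ S)
    (hch : ∀ i j l : Fin (k + 2), i < j → i < l → dist (S i) (S j) = dist (S i) (S l)) :
    GoodCos k (cosOf S) := by
  set r := dist (S 0) (S (Fin.last (k + 1))) with hr
  have hne : S 0 ≠ S (Fin.last (k + 1)) := fun h => by
    have := hS.injective h
    exact absurd this (Fin.last_pos).ne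
  have hrpos : 0 < r := dist_pos.2 hne
  have hli : LinearIndependent ℝ (fun i : Fin (k + 1) => S i.succ - S 0) := by
    rw [affineIndependent_iff_linearIndependent_vsub ℝ S 0] at hS
    exact hS.comp (fun i : Fin (k + 1) => (⟨i.succ, Fin.succ_ne_zero i⟩ :
      {x : Fin (k + 2) // x ≠ 0})) (by
        intro i j hij
        have := congrArg Subtype.val hij
        exact Fin.succ_injective _ this)
  have hn : ∀ i : Fin (k + 1), ‖S i.succ - S 0‖ = r := by
    intro i
    rw [← dist_eq_norm, dist_comm, dist_eq_last hch (Fin.succ_pos i)]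
  refine goodCos_of_linearIndependent k (cosOf S) (fun i => r⁻¹ • (S i.succ - S 0)) ?_ ?_ ?_
  · rw [Fintype.linearIndependent_iff] at hli ⊢
    intro a ha j
    have h1 := hli (fun j => a j * r⁻¹) (by
      rw [← ha]
      simp only [smul_smul]) j
    rcases mul_eq_zero.1 h1 with h | h
    · exact h
    · exact absurd h (inv_ne_zero hrpos.ne')
  · intro i
    rw [norm_smul, norm_inv, Real.norm_of_nonneg hrpos.le, hn, inv_mul_cancel₀ hrpos.ne']
  · intro i j hij
    rw [cosOf_eq hch hij, real_inner_smul_left, real_inner_smul_right]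
    have h1 : dist (S i.succ) (S j.succ) ^ 2 =
        r ^ 2 - 2 * inner ℝ (S i.succ - S 0) (S j.succ - S 0) + r ^ 2 := by
      have h2 : S i.succ - S j.succ = (S i.succ - S 0) - (S j.succ - S 0) := by abel
      rw [dist_eq_norm, h2, norm_sub_sq_real (S i.succ - S 0) (S j.succ - S 0), hn, hn]
    rw [h1, ← hr]
    field_simp
    ring

/-- The approximate configurations. -/
theorem approx {k : ℕ} {S : Fin (k + 2) → EuclideanSpace ℝ (Fin (k + 1))}
    (hS : AffineIndependent ℝ S)
    (hch : ∀ i j l : Fin (k + 2), i < j → i < l → dist (S i) (S j) = dist (S i) (S l))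
    {ε : ℝ} (hcatch : Catch k (cosOf S) ε)
    {M U : Set (EuclideanSpace ℝ (Fin (k + 1)))} (hM : IsCompact M) (hUo : IsOpen U)
    (hUc : IsConnected U) (hUM : U ⊆ M) (hUf : frontier U ⊆ frontier M)
    {q p : EuclideanSpace ℝ (Fin (k + 1))} {ρ : ℝ} (hρ : 0 < ρ)
    (hball : Metric.ball q ρ ⊆ U) (hp : p ∉ U) (hpq : dist q p = ρ)
    {s : ℝ} (hs : 0 < s) (hδρ : s * dist (S 0) (S (Fin.last (k + 1))) < 2 * ρ * ε)
    {f : EuclideanSpace ℝ (Fin (k + 1)) → ℝ} (hf : ContinuousOn f M)
    (hf0 : ∀ x ∈ M, 0 ≤ f x) (hff : ∀ x ∈ frontier M, f x = 0) {κ : ℝ} (hκ : 0 < κ) :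
    ∃ Y : Fin (k + 2) → EuclideanSpace ℝ (Fin (k + 1)), (∀ i, Y i ∈ M) ∧
      (∀ i j, dist (Y i) (Y j) = s * dist (S i) (S j)) ∧ ∀ i, |f (Y i) - f (Y 0)| ≤ κ := by
  set r := dist (S 0) (S (Fin.last (k + 1))) with hr
  have hne : S 0 ≠ S (Fin.last (k + 1)) := fun h => by
    have := hS.injective h
    exact absurd this (Fin.last_pos).ne
  have hrpos : 0 < r := dist_pos.2 hne
  set δ := s * r with hδ
  have hδpos : 0 < δ := mul_pos hs hrpos
  obtain ⟨F, hFc, hFpos, hFzero, hFf⟩ := exists_aux hM.isClosed hUo hUM hUf hf hf0 hff ⟨p, hp⟩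
    (κ := κ / (2 * δ)) (by positivity)
  obtain ⟨x, y, hx, hxy, hy, hF⟩ := exists_approx hcatch hUo hUc (hM.isBounded.subset hUM) hFc
    hFpos hFzero hρ hball hp hpq hδpos hδρ (κ := κ / 2) (by positivity)
  have hd0 : ∀ j, dist x (x + δ • (y j : EuclideanSpace ℝ (Fin (k + 1)))) = δ := by
    intro j
    rw [dist_self_add_right, norm_smul, norm_eq_of_mem_sphere, mul_one,
      Real.norm_of_nonneg hδpos.le]
  have hlt : ∀ i j : Fin (k + 1), i < j →
      dist (x + δ • (y i : EuclideanSpace ℝ (Fin (k + 1))))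
        (x + δ • (y j : EuclideanSpace ℝ (Fin (k + 1)))) = s * dist (S i.succ) (S j.succ) := by
    intro i j hij
    rw [dist_add_left, dist_eq_norm, ← smul_sub, norm_smul, Real.norm_of_nonneg hδpos.le]
    have h1 : ‖(y i : EuclideanSpace ℝ (Fin (k + 1))) - y j‖ ^ 2 =
        (dist (S i.succ) (S j.succ) / r) ^ 2 := by
      rw [norm_sub_sq_real, hy i j hij, cosOf_eq hch hij]
      simp only [norm_eq_of_mem_sphere, ← hr]
      field_simp
      ring
    have h2 : ‖(y i : EuclideanSpace ℝ (Fin (k + 1))) - y j‖ =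
        dist (S i.succ) (S j.succ) / r := by
      rw [← abs_of_nonneg (norm_nonneg ((y i : EuclideanSpace ℝ (Fin (k + 1))) - y j)),
        ← abs_of_nonneg (show 0 ≤ dist (S i.succ) (S j.succ) / r by positivity)]
      exact (sq_eq_sq_iff_abs_eq_abs _ _).1 h1
    rw [h2, hδ]
    field_simp
  refine ⟨Fin.cons x (fun i => x + δ • (y i : EuclideanSpace ℝ (Fin (k + 1)))), ?_, ?_, ?_⟩
  · intro i
    refine Fin.cases ?_ (fun i => ?_) i
    · rw [Fin.cons_zero]; exact hUM hx
    · rw [Fin.cons_succ]; exact hUM (hxy i)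
  · intro i j
    refine Fin.cases ?_ (fun i => ?_) i
    · refine Fin.cases ?_ (fun j => ?_) j
      · simp
      · rw [Fin.cons_zero, Fin.cons_succ, hd0, dist_eq_last hch (Fin.succ_pos j)]
    · refine Fin.cases ?_ (fun j => ?_) j
      · rw [Fin.cons_zero, Fin.cons_succ, dist_comm, hd0, dist_comm,
          dist_eq_last hch (Fin.succ_pos i)]
      · rw [Fin.cons_succ, Fin.cons_succ]
        rcases lt_trichotomy i j with h | h | h
        · exact hlt i j h
        · subst h; simp
        · rw [dist_comm, hlt j i h, dist_comm]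
  · intro i
    refine Fin.cases ?_ (fun i => ?_) i
    · simp [hκ.le]
    · rw [Fin.cons_succ, Fin.cons_zero]
      have h1 := hFf _ (hxy i) x hx
      have h2 := hF i
      rw [dist_comm, hd0] at h1
      have h3 : κ / (2 * δ) * δ = κ / 2 := by field_simp
      linarith

theorem main {k : ℕ} {S : Fin (k + 2) → EuclideanSpace ℝ (Fin (k + 1))}
    (hS : AffineIndependent ℝ S)
    (hch : ∀ i j l : Fin (k + 2), i < j → i < l → dist (S i) (S j) = dist (S i) (S l))
    {M : Set (EuclideanSpace ℝ (Fin (k + 1)))} (hM : IsCompact M)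
    (hint : (interior M).Nonempty) :
    ∃ σ : ℝ, 0 < σ ∧ ∀ τ : ℝ, 0 < τ → τ ≤ σ →
      ∀ f : EuclideanSpace ℝ (Fin (k + 1)) → ℝ, ContinuousOn f M → (∀ x ∈ M, 0 ≤ f x) →
        (∀ x ∈ frontier M, f x = 0) →
        ∃ (g : EuclideanSpace ℝ (Fin (k + 1)) ≃ᵢ EuclideanSpace ℝ (Fin (k + 1))) (c : ℝ), 0 < c ∧
          (∀ i, g (c • S i) ∈ M) ∧ (∀ i j, f (g (c • S i)) = f (g (c • S j))) ∧
          Metric.diam (convexHull ℝ (Set.range fun i => g (c • S i))) = τ := by
  obtain ⟨ε, hε, -, hcatch⟩ := exists_catch k (cosOf S) (goodCos hS hch)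
  obtain ⟨q, hq⟩ := hint
  set U := connectedComponentIn (interior M) q with hU
  have hUo : IsOpen U := isOpen_interior.connectedComponentIn
  have hqU : q ∈ U := mem_connectedComponentIn hq
  have hUc : IsConnected U := ⟨⟨q, hqU⟩, isPreconnected_connectedComponentIn⟩
  have hUM : U ⊆ M := (connectedComponentIn_subset _ _).trans interior_subset
  have hUne : (Uᶜ).Nonempty := by
    rw [nonempty_compl]
    intro h
    rw [h, univ_subset_iff] at hUM
    rw [hUM] at hM
    exact noncompact_univ (EuclideanSpace ℝ (Fin (k + 1))) hM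
  have hUf : frontier U ⊆ frontier M := by
    intro x hx
    rw [hUo.frontier_eq] at hx
    refine ⟨closure_mono hUM hx.1, ?_⟩
    intro hxi
    have hopen : IsOpen (connectedComponentIn (interior M) x) :=
      isOpen_interior.connectedComponentIn
    have hmem : x ∈ connectedComponentIn (interior M) x := mem_connectedComponentIn hxi
    obtain ⟨z, hz1, hz2⟩ := mem_closure_iff.1 hx.1 _ hopen hmem
    have e1 : connectedComponentIn (interior M) x = connectedComponentIn (interior M) z :=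
      connectedComponentIn_eq hz1
    have e2 : connectedComponentIn (interior M) q = connectedComponentIn (interior M) z :=
      connectedComponentIn_eq hz2
    apply hx.2
    rw [hU, e2, ← e1]
    exact hmem
  obtain ⟨p, hp, hpq⟩ := hUo.isClosed_compl.exists_infDist_eq_dist hUne q
  set ρ := dist q p with hρ
  have hρpos : 0 < ρ := by
    rw [← hpq]
    exact (hUo.isClosed_compl.notMem_iff_infDist_pos hUne).1 (fun h => h hqU)
  have hball : Metric.ball q ρ ⊆ U := by
    intro x hx
    by_contra hxU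
    have h1 : Metric.infDist q Uᶜ ≤ dist q x := Metric.infDist_le_dist_of_mem hxU
    rw [Metric.mem_ball, dist_comm] at hx
    linarith
  -- the diameter of the model simplex
  set D := Metric.diam (range S) with hD
  have hbdd : Bornology.IsBounded (range S) := (finite_range S).isBounded
  set r := dist (S 0) (S (Fin.last (k + 1))) with hr
  have hne : S 0 ≠ S (Fin.last (k + 1)) := fun h => by
    have := hS.injective h
    exact absurd this (Fin.last_pos).ne
  have hrpos : 0 < r := dist_pos.2 hne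
  have hrD : r ≤ D := Metric.dist_le_diam_of_mem hbdd (mem_range_self _) (mem_range_self _)
  have hDpos : 0 < D := hrpos.trans_le hrD
  refine ⟨ρ * ε, by positivity, ?_⟩
  intro τ hτ hτσ f hf hf0 hff
  set s := τ / D with hs
  have hspos : 0 < s := by positivity
  have hδ : s * r < 2 * ρ * ε := by
    have h1 : s * r ≤ s * D := mul_le_mul_of_nonneg_left hrD hspos.le
    have h2 : s * D = τ := by rw [hs]; field_simp
    have h3 : 0 < ρ * ε := by positivity
    linarith
  -- the compact configuration space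
  set 𝒴 : Set (Fin (k + 2) → EuclideanSpace ℝ (Fin (k + 1))) :=
    {Y | (∀ i, Y i ∈ M) ∧ ∀ i j, dist (Y i) (Y j) = s * dist (S i) (S j)} with h𝒴
  have h𝒴c : IsCompact 𝒴 := by
    have h1 : IsCompact (Set.pi univ fun _ : Fin (k + 2) => M) := isCompact_univ_pi fun _ => hM
    have h2 : IsClosed {Y : Fin (k + 2) → EuclideanSpace ℝ (Fin (k + 1)) |
        ∀ i j, dist (Y i) (Y j) = s * dist (S i) (S j)} := by
      simp only [Set.ofPred_forall]
      refine isClosed_iInter fun i => isClosed_iInter fun j => ?_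
      exact isClosed_eq (by fun_prop) continuous_const
    have h3 : 𝒴 = (Set.pi univ fun _ : Fin (k + 2) => M) ∩
        {Y | ∀ i j, dist (Y i) (Y j) = s * dist (S i) (S j)} := by
      ext Y
      constructor
      · rintro ⟨h4, h5⟩
        exact ⟨fun i _ => h4 i, h5⟩
      · rintro ⟨h4, h5⟩
        exact ⟨fun i => h4 i trivial, h5⟩
    rw [h3]
    exact h1.inter_right h2
  have hap : ∀ κ : ℝ, 0 < κ → ∃ Y ∈ 𝒴, ∀ i, |f (Y i) - f (Y 0)| ≤ κ := by
    intro κ hκ
    obtain ⟨Y, hY1, hY2, hY3⟩ := approx hS hch hcatch hM hUo hUc hUM hUf hρpos hball hp hρ.symm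
      hspos hδ hf hf0 hff hκ
    exact ⟨Y, ⟨hY1, hY2⟩, hY3⟩
  obtain ⟨Y₁, hY₁, -⟩ := hap 1 one_pos
  have hcont : ContinuousOn (fun Y : Fin (k + 2) → EuclideanSpace ℝ (Fin (k + 1)) =>
      ∑ i, |f (Y i) - f (Y 0)|) 𝒴 := by
    apply continuousOn_finsetSum
    intro i _
    apply ContinuousOn.abs
    apply ContinuousOn.sub
    · exact hf.comp (continuous_apply i).continuousOn (fun Y hY => hY.1 i)
    · exact hf.comp (continuous_apply 0).continuousOn (fun Y hY => hY.1 0)
  obtain ⟨Y, hY, hmin⟩ := h𝒴c.exists_isMinOn ⟨Y₁, hY₁⟩ hcont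
  have hsum : ∑ i, |f (Y i) - f (Y 0)| ≤ 0 := by
    apply le_of_forall_pos_le_add
    intro κ hκ
    obtain ⟨Y', hY', hY'2⟩ := hap (κ / (k + 2)) (by positivity)
    have h1 : ∑ i, |f (Y i) - f (Y 0)| ≤ ∑ i, |f (Y' i) - f (Y' 0)| := hmin hY'
    have h2 : ∑ i, |f (Y' i) - f (Y' 0)| ≤ ∑ _i : Fin (k + 2), κ / (k + 2) :=
      Finset.sum_le_sum fun i _ => hY'2 i
    rw [Finset.sum_const, Finset.card_univ, Fintype.card_fin, nsmul_eq_mul] at h2
    have h3 : ((k + 2 : ℕ) : ℝ) * (κ / (k + 2)) = κ := by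
      push_cast
      field_simp
    linarith
  have hall : ∀ i, f (Y i) = f (Y 0) := by
    intro i
    have h1 : |f (Y i) - f (Y 0)| ≤ ∑ i, |f (Y i) - f (Y 0)| :=
      Finset.single_le_sum (f := fun i => |f (Y i) - f (Y 0)|) (fun i _ => abs_nonneg _)
        (Finset.mem_univ i)
    have h2 : |f (Y i) - f (Y 0)| = 0 := le_antisymm (h1.trans hsum) (abs_nonneg _)
    rw [abs_eq_zero, sub_eq_zero] at h2
    exact h2
  -- the similarity
  have hA : AffineIndependent ℝ (fun i => s • S i) := by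
    have h1 : (fun i => s • S i) =
        (AffineEquiv.homothetyUnitsMulHom (0 : EuclideanSpace ℝ (Fin (k + 1)))
          (Units.mk0 s hspos.ne')) ∘ S := by
      funext i
      simp [AffineMap.homothety_apply]
    rw [h1]
    exact (AffineEquiv.affineIndependent_iff _).2 hS
  obtain ⟨g, hg⟩ := exists_isometry (A := fun i => s • S i) (B := Y) hA (by
    intro i j
    rw [hY.2 i j, dist_smul₀, Real.norm_of_nonneg hspos.le])
  have hg' : ∀ i, g (s • S i) = Y i := hg
  refine ⟨g, s, hspos, ?_, ?_, ?_⟩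
  · intro i
    rw [hg']; exact hY.1 i
  · intro i j
    rw [hg', hg', hall i, hall j]
  · rw [convexHull_diam]
    have h1 : (range fun i => g (s • S i)) = g '' (s • range S) := by
      ext x
      constructor
      · rintro ⟨i, rfl⟩
        exact ⟨s • S i, ⟨S i, mem_range_self i, rfl⟩, rfl⟩
      · rintro ⟨_, ⟨_, ⟨i, rfl⟩, rfl⟩, rfl⟩
        exact ⟨i, rfl⟩
    rw [h1, IsometryEquiv.diam_image, diam_smul₀, Real.norm_of_nonneg hspos.le, ← hD, hs]
    field_simp

end Pool.Agent.InscribedSimplex
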